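import Pool.Agent.Helper19.ZH.Sieve
import Pool.Agent.Helper62.ZH.Sys

/-!
# Project ZH (MP_f907b0): Polish codes of trees, reading trees from a stream of digits

* `bits t`: the Polish code of the tree `t`.
* `Rd d i t j`: the digits number `i, ..., j - 1` of `d` are the code of `t`. Every stream with finitely many ones can be read from every position (`exists_rd`), in one way (`Rd.unique`).
* `exists_number`: every word is an initial segment of the binary digits of arbitrarily large numbers.
* `num_inj`: the trees `x`, `e`, `p` can be read off the number `num (bits x ++ bits e ++ bits p)`.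
-/

set_option autoImplicit false

namespace Pool.Agent.Helper19.ZH

open Pool.Agent.Helper62.ZH (Tree)

/-- Polish code. -/
def bits : Tree → List Bool
  | .o => [false]
  | .p a b => true :: (bits a ++ bits b)

theorem bits_ne_nil (t : Tree) : bits t ≠ [] := by cases t <;> simp [bits]

theorem bits_pos (t : Tree) : 0 < (bits t).length := List.length_pos_of_ne_nil (bits_ne_nil t)

/-- The digits `i, ..., j - 1` of `d` are the code of `t`. -/
inductive Rd (d : ℕ → Bool) : ℕ → Tree → ℕ → Prop
  | o {i : ℕ} : d i = false → Rd d i .o (i + 1)
  | p {i j k : ℕ} {a b : Tree} : d i = true → Rd d (i + 1) a j → Rd d j b k → Rd d i (.p a b) k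

theorem Rd.lt {d : ℕ → Bool} {i j : ℕ} {t : Tree} (h : Rd d i t j) : i < j := by
  induction h with
  | o _ => omega
  | p _ _ _ _ _ => omega

theorem Rd.unique {d : ℕ → Bool} {i j j' : ℕ} {t t' : Tree} (h : Rd d i t j) (h' : Rd d i t' j') : t = t' ∧ j = j' := by
  induction h generalizing t' j' with
  | o h0 =>
    cases h' with
    | o _ => exact ⟨rfl, rfl⟩
    | p h1 _ _ => rw [h0] at h1; cases h1
  | p h0 _ _ ih1 ih2 =>
    cases h' with
    | o h1 => rw [h0] at h1; cases h1
    | p _ h2 h3 =>
      obtain ⟨rfl, rfl⟩ := ih1 h2
      obtain ⟨rfl, rfl⟩ := ih2 h3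
      exact ⟨rfl, rfl⟩

theorem exists_rd {d : ℕ → Bool} {N : ℕ} (hd : ∀ i, N ≤ i → d i = false) (i : ℕ) : ∃ t j, Rd d i t j := by
  induction hm : N - i using Nat.strong_induction_on generalizing i with
  | _ m ih =>
    cases h : d i with
    | false => exact ⟨.o, i + 1, .o h⟩
    | true =>
      have hi : i < N := by
        by_contra hcon
        rw [hd i (by omega)] at h
        cases h
      obtain ⟨a, j, ha⟩ := ih (N - (i + 1)) (by omega) (i + 1) rfl
      have := ha.lt
      obtain ⟨b, k, hb⟩ := ih (N - j) (by omega) j rfl
      exact ⟨.p a b, k, .p h ha hb⟩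

/-- `w` stands at position `i` of `d`. -/
def At (d : ℕ → Bool) (i : ℕ) (w : List Bool) : Prop := ∀ m b, w[m]? = some b → d (i + m) = b

theorem At.nil (d : ℕ → Bool) (i : ℕ) : At d i [] := by
  intro m b h
  simp at h

theorem at_cons {d : ℕ → Bool} {i : ℕ} {a : Bool} {w : List Bool} : At d i (a :: w) ↔ d i = a ∧ At d (i + 1) w := by
  constructor
  · intro h
    refine ⟨h 0 a rfl, fun m b hb => ?_⟩
    have := h (m + 1) b (by simpa using hb)
    rwa [show i + 1 + m = i + (m + 1) by omega]
  · rintro ⟨h0, h⟩ m b hb
    cases m with
    | zero => simp at hb; subst hb; simpa using h0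
    | succ m =>
      have := h m b (by simpa using hb)
      rwa [show i + (m + 1) = i + 1 + m by omega]

theorem at_append {d : ℕ → Bool} {i : ℕ} {v w : List Bool} : At d i (v ++ w) ↔ At d i v ∧ At d (i + v.length) w := by
  induction v generalizing i with
  | nil => simp [At.nil]
  | cons a v ih =>
    rw [List.cons_append, at_cons, ih, at_cons, and_assoc, List.length_cons, show i + 1 + v.length = i + (v.length + 1) by omega]

theorem rd_iff {d : ℕ → Bool} {i j : ℕ} {t : Tree} : Rd d i t j ↔ At d i (bits t) ∧ j = i + (bits t).length := by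
  constructor
  · intro h
    induction h with
    | o h0 => exact ⟨at_cons.2 ⟨h0, At.nil _ _⟩, rfl⟩
    | p h0 _ _ ih1 ih2 =>
      obtain ⟨h1, rfl⟩ := ih1
      obtain ⟨h2, rfl⟩ := ih2
      refine ⟨at_cons.2 ⟨h0, at_append.2 ⟨h1, h2⟩⟩, ?_⟩
      simp only [bits, List.length_cons, List.length_append]
      omega
  · rintro ⟨h, rfl⟩
    induction t generalizing i with
    | o => exact .o (at_cons.1 h).1
    | p a b iha ihb =>
      obtain ⟨h0, h1⟩ := at_cons.1 h
      obtain ⟨h1, h2⟩ := at_append.1 h1
      have := Rd.p h0 (iha h1) (ihb h2)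
      simp only [bits, List.length_cons, List.length_append]
      rwa [show i + 1 + (bits a).length + (bits b).length = i + ((bits a).length + (bits b).length + 1) by omega] at this

theorem testBit_num (w : List Bool) (m i : ℕ) (hi : i < w.length) : (num w + 2 ^ w.length * m).testBit i = w[i] := by
  induction w generalizing i with
  | nil => simp at hi
  | cons a w ih =>
    have e : num (a :: w) + 2 ^ (a :: w).length * m = 2 * (num w + 2 ^ w.length * m) + a.toNat := by
      simp only [num, List.length_cons, pow_succ]
      ring
    rw [e]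
    cases i with
    | zero => cases a <;> simp [Nat.testBit_zero]
    | succ i =>
      have h2 : (2 * (num w + 2 ^ w.length * m) + a.toNat) / 2 = num w + 2 ^ w.length * m := by
        cases a
        · simp
        · simp only [Bool.toNat_true]; omega
      rw [Nat.testBit_succ, h2]
      exact ih i (by simpa using hi)

theorem num_testBit_ge (w : List Bool) (i : ℕ) (hi : w.length ≤ i) : (num w).testBit i = false :=
  Nat.testBit_lt_two_pow (lt_of_lt_of_le (num_lt w) (Nat.pow_le_pow_right (by norm_num) hi))

theorem at_num (w : List Bool) (m : ℕ) : At (fun i => (num w + 2 ^ w.length * m).testBit i) 0 w := by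
  intro i b h
  obtain ⟨h1, h2⟩ := List.getElem?_eq_some_iff.1 h
  simp only [Nat.zero_add]
  rw [testBit_num w m i h1, h2]

/-- Every word is an initial segment of the digits of a number `≥ N`. -/
theorem exists_number (w : List Bool) (N : ℕ) : ∃ n, N ≤ n ∧ At (fun i => n.testBit i) 0 w := by
  refine ⟨num w + 2 ^ w.length * N, ?_, at_num w N⟩
  have : 1 * N ≤ 2 ^ w.length * N := Nat.mul_le_mul_right N (Nat.one_le_two_pow)
  omega

theorem at_num' (w : List Bool) : At (fun i => (num w).testBit i) 0 w := by
  have := at_num w 0
  simpa using this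

/-- Words of trees, one after the other. -/
def bitss : List Tree → List Bool
  | [] => []
  | t :: l => bits t ++ bitss l

theorem bitss_append (l m : List Tree) : bitss (l ++ m) = bitss l ++ bitss m := by
  induction l with
  | nil => rfl
  | cons t l ih => simp [bitss, ih]

/-- A list of trees is determined by a stream that starts with its code. -/
theorem at_bitss_inj {d : ℕ → Bool} {i : ℕ} {l l' : List Tree} (h : At d i (bitss l)) (h' : At d i (bitss l')) (hl : l.length = l'.length) : l = l' := by
  induction l generalizing l' i with
  | nil => cases l' with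
    | nil => rfl
    | cons _ _ => simp at hl
  | cons t l ih => cases l' with
    | nil => simp at hl
    | cons t' l' =>
      obtain ⟨h1, h2⟩ := at_append.1 h
      obtain ⟨h1', h2'⟩ := at_append.1 h'
      obtain ⟨rfl, -⟩ := (rd_iff.2 ⟨h1, rfl⟩).unique (rd_iff.2 ⟨h1', rfl⟩)
      rw [ih h2 h2' (by simpa using hl)]

theorem num_inj {l l' : List Tree} (h : num (bitss l) = num (bitss l')) (hl : l.length = l'.length) : l = l' := by
  have h1 := at_num' (bitss l)
  rw [h] at h1
  exact at_bitss_inj h1 (at_num' (bitss l')) hl

/-- Trailing zeros do not matter. -/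
theorem num_append_false (w : List Bool) (k : ℕ) : num (w ++ List.replicate k false) = num w := by
  rw [num_append]
  have : num (List.replicate k false) = 0 := by
    induction k with
    | zero => rfl
    | succ k ih => rw [List.replicate_succ, num, ih]; rfl
  rw [this]
  simp

theorem num_append_o (w : List Bool) : num (w ++ bits .o) = num w := num_append_false w 1

theorem num_append_o2 (w : List Bool) : num (w ++ bits .o ++ bits .o) = num w := by rw [num_append_o, num_append_o]

end Pool.Agent.Helper19.ZH
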