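import Mathlib

/-!
# Project ZH (MP_f907b0): the depth first search over bit strings (helper30's scheme)

Bit strings are lists with the LAST bit first. A node `b` is tested by `P` (violation). If there is none, the node `false :: b` is next, otherwise the next node in lexicographic order that is not
below `b`; the search ends (`none`) if there is no such node. THEOREM `dfs_ends_iff`: the search, started at the empty string, ends iff every infinite branch has a violated initial segment.
-/

set_option autoImplicit false

namespace Pool.Agent.Helper19.ZH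

/-- Remove the trailing ones and turn the last zero into a one. -/
def back : List Bool → Option (List Bool)
  | [] => none
  | false :: b => some (true :: b)
  | true :: b => back b

/-- One round of the search. -/
def dfs (P : List Bool → Prop) [DecidablePred P] (b : List Bool) : Option (List Bool) :=
  if P b then back b else some (false :: b)

/-- The initial segment of length `n` of the branch `β` (last bit first). -/
def pre (β : ℕ → Bool) : ℕ → List Bool
  | 0 => []
  | n + 1 => β n :: pre β n

@[simp] theorem length_pre (β : ℕ → Bool) (n : ℕ) : (pre β n).length = n := by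
  induction n with
  | zero => rfl
  | succ n ih => simp [pre, ih]

theorem pre_congr {β γ : ℕ → Bool} {n : ℕ} (h : ∀ i, i < n → β i = γ i) : pre β n = pre γ n := by
  induction n with
  | zero => rfl
  | succ n ih => rw [pre, pre, h n (Nat.lt_succ_self n), ih (fun i hi => h i (Nat.lt_succ_of_lt hi))]

/-- The bit number `i` (first bit = number 0) of a string with the last bit first. -/
def bit (b : List Bool) (i : ℕ) : Option Bool := b.reverse[i]?

theorem bit_pre (β : ℕ → Bool) (n i : ℕ) : bit (pre β n) i = if i < n then some (β i) else none := by
  unfold bit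
  induction n with
  | zero => simp [pre]
  | succ n ih =>
    rw [pre, List.reverse_cons]
    by_cases h : i < n
    · rw [List.getElem?_append_left (by simpa using h), ih, if_pos h, if_pos (Nat.lt_succ_of_lt h)]
    · rw [List.getElem?_append_right (by simpa using h)]
      simp only [List.length_reverse, length_pre]
      by_cases h' : i = n
      · subst h'
        simp
      · rw [if_neg (by omega)]
        rw [List.getElem?_eq_none]
        simp
        omega

theorem bit_length_le {b : List Bool} {i : ℕ} (h : b.length ≤ i) : bit b i = none := by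
  unfold bit
  rw [List.getElem?_eq_none]
  simpa using h

section

variable (P : List Bool → Prop) [DecidablePred P]

/-- The iteration. -/
def its (k : ℕ) (x : Option (List Bool)) : Option (List Bool) := (fun x : Option (List Bool) => x.bind (dfs P))^[k] x

theorem its_add (k m : ℕ) (x : Option (List Bool)) : its P (k + m) x = its P m (its P k x) := by
  unfold its
  rw [Nat.add_comm, Function.iterate_add_apply]

theorem its_one (b : List Bool) : its P 1 (some b) = dfs P b := rfl

/-- Invariant: `b` is an initial segment of `β`, or lies to the left of `β`. -/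
def Inv (β : ℕ → Bool) (b : List Bool) : Prop :=
  (∃ n, b = pre β n) ∨ ∃ u j, b = u ++ false :: pre β j ∧ β j = true

theorem back_left {β : ℕ → Bool} {j : ℕ} (hj : β j = true) (u : List Bool) : ∃ b, back (u ++ false :: pre β j) = some b ∧ Inv β b := by
  induction u with
  | nil => exact ⟨true :: pre β j, rfl, Or.inl ⟨j + 1, by rw [pre, hj]⟩⟩
  | cons a u ih =>
    cases a with
    | true => exact ih
    | false => exact ⟨true :: (u ++ false :: pre β j), rfl, Or.inr ⟨true :: u, j, rfl, hj⟩⟩

theorem inv_step {β : ℕ → Bool} (hβ : ∀ n, ¬ P (pre β n)) {b : List Bool} (hb : Inv β b) : ∃ b', dfs P b = some b' ∧ Inv β b' := by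
  unfold dfs
  by_cases hP : P b
  · rw [if_pos hP]
    rcases hb with ⟨n, rfl⟩ | ⟨u, j, rfl, hj⟩
    · exact absurd hP (hβ n)
    · exact back_left hj u
  · rw [if_neg hP]
    refine ⟨_, rfl, ?_⟩
    rcases hb with ⟨n, rfl⟩ | ⟨u, j, rfl, hj⟩
    · cases h : β n with
      | false => exact Or.inl ⟨n + 1, by rw [pre, h]⟩
      | true => exact Or.inr ⟨[], n, rfl, h⟩
    · exact Or.inr ⟨false :: u, j, rfl, hj⟩

theorem inv_its {β : ℕ → Bool} (hβ : ∀ n, ¬ P (pre β n)) (k : ℕ) : ∃ b, its P k (some []) = some b ∧ Inv β b := by
  induction k with
  | zero => exact ⟨[], rfl, Or.inl ⟨0, rfl⟩⟩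
  | succ k ih =>
    obtain ⟨b, hb, hi⟩ := ih
    obtain ⟨b', hb', hi'⟩ := inv_step P hβ hi
    refine ⟨b', ?_, hi'⟩
    rw [its_add, hb, its_one, hb']

/-- The search started at `b` leaves the tree below `b`. -/
def Leaves (b : List Bool) : Prop := ∃ k, its P k (some b) = back b

theorem leaves_of {b : List Bool} (h0 : Leaves P (false :: b)) (h1 : Leaves P (true :: b)) : Leaves P b := by
  by_cases hP : P b
  · exact ⟨1, by rw [its_one, dfs, if_pos hP]⟩
  · obtain ⟨k0, h0⟩ := h0
    obtain ⟨k1, h1⟩ := h1
    refine ⟨1 + k0 + k1, ?_⟩
    rw [its_add, its_add, its_one, dfs, if_neg hP, h0]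
    exact h1

theorem leaves_of_P {b : List Bool} (hP : P b) : Leaves P b := ⟨1, by rw [its_one, dfs, if_pos hP]⟩

/-- A branch on which nothing is left. -/
noncomputable def bad (n : ℕ) : {b : List Bool // b.length = n} :=
  Nat.rec ⟨[], rfl⟩ (fun n b => by
    classical
    exact if Leaves P (false :: b.1) then ⟨true :: b.1, by simp [b.2]⟩ else ⟨false :: b.1, by simp [b.2]⟩) n

theorem bad_succ (n : ℕ) : (bad P (n + 1)).1 = (by classical exact if Leaves P (false :: (bad P n).1) then true else false) :: (bad P n).1 := by
  classical
  have : bad P (n + 1) = if Leaves P (false :: (bad P n).1) then ⟨true :: (bad P n).1, by simp [(bad P n).2]⟩ else ⟨false :: (bad P n).1, by simp [(bad P n).2]⟩ := rfl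
  rw [this]
  split_ifs <;> rfl

theorem bad_spec (h : ¬ Leaves P []) (n : ℕ) : ¬ Leaves P (bad P n).1 := by
  classical
  induction n with
  | zero => exact h
  | succ n ih =>
    rw [bad_succ]
    by_cases h0 : Leaves P (false :: (bad P n).1)
    · rw [if_pos h0]
      exact fun h1 => ih (leaves_of P h0 h1)
    · rw [if_neg h0]
      exact h0

/-- The search ends iff every branch has a violated initial segment. -/
theorem dfs_ends_iff : (∃ k, its P k (some []) = none) ↔ ∀ β : ℕ → Bool, ∃ n, P (pre β n) := by
  constructor
  · rintro ⟨k, hk⟩ β
    by_contra hcon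
    push Not at hcon
    obtain ⟨b, hb, _⟩ := inv_its P hcon k
    rw [hb] at hk
    cases hk
  · intro h
    by_contra hcon
    have h1 : ¬ Leaves P [] := by
      rintro ⟨k, hk⟩
      exact hcon ⟨k, hk⟩
    classical
    obtain ⟨n, hn⟩ := h (fun n => if Leaves P (false :: (bad P n).1) then true else false)
    have h2 : ∀ n, pre (fun n => if Leaves P (false :: (bad P n).1) then true else false) n = (bad P n).1 := by
      intro n
      induction n with
      | zero => rfl
      | succ n ih => rw [pre, ih, bad_succ]
    rw [h2] at hn
    exact bad_spec P h1 n (leaves_of_P P hn)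

end

end Pool.Agent.Helper19.ZH
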