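import Pool.Agent.Helper19.ZH.Copy

/-!
# Project ZH (MP_f907b0): the look-up of the value of an atom
-/

set_option autoImplicit false

namespace Pool.Agent.Helper19.ZH

variable {σ : Type} {δ : σ → Bool → Option (Bool × Bool × σ)}

/-- If `c` leads to `e` and the first step leads to `c1`, then `c1` leads to `e`. -/
theorem Reach.of_step {c c1 e : C σ} (h : stp δ c = some c1) (h2 : Reach δ c e) (hne : c.q ≠ e.q) : Reach δ c1 e := by
  obtain ⟨k, hk⟩ := h2
  cases k with
  | zero =>
    simp only [stps, Option.some.injEq] at hk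
    exact absurd (by rw [hk]) hne
  | succ k =>
    simp only [stps, h, Option.bind_some] at hk
    exact ⟨k, hk⟩

variable {prog : List Tok}

/-- The clean cell. -/
def cln (c : Cell) : Cell := ⟨c.v, true, true⟩

/-- The old flag `d` of the last cell. -/
def ld (cs : List Cell) : Bool := fin (fun (_ : Bool) (c : Cell) => c.d) false cs

theorem fin_ld {cs : List Cell} (h : cs ≠ []) (i : Bool) : fin (fun (_ : Bool) (c : Cell) => c.d) i cs = ld cs := by
  obtain ⟨c, cs, rfl⟩ := List.exists_cons_of_ne_nil h
  rfl

theorem ld_append {pre post : List Cell} (h : post ≠ []) : ld (pre ++ post) = ld post := by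
  rw [ld, fin_append, fin_ld h]

theorem ld_mk {vs as ds : List Bool} (h1 : as.length = vs.length) (h2 : ds.length = vs.length) (hl : ds.getLast? = some false) : ld (mk vs as ds) = false :=
  fin_d h1 h2 hl false

/-- The reset pass that starts at the bit `a` of a cell. -/
theorem ra_run (L : Str) (pre post : List Cell) (h : post ≠ []) : Reach (del prog) (Ac .RA L pre post) (Ec (.RE (ld post)) L (pre ++ post.map cln) []) := by
  have h0 := (pass_R prog).run post h false L pre (fun _ _ => trivial)
  rw [fin_ld h] at h0
  have h1 : Reach (del prog) (Vc .RV L pre post) (Ec (.RE (ld post)) L (pre ++ post.map cln) []) := by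
    rw [← scan_const (fun (_ : Bool) (c : Cell) => c.d) cln false post]
    exact h0
  obtain ⟨c, cs, rfl⟩ := List.exists_cons_of_ne_nil h
  refine Reach.of_step (c := Vc .RV L pre (c :: cs)) ?_ h1 (by simp [Vc, Ec])
  rcases c with ⟨v, a, d⟩
  cases v <;> rfl

theorem ra_home (L : Str) (pre post : List Cell) (h : post ≠ []) (hd : ld post = false) :
    Reach (del prog) (Ac .RA L pre post) (Home (.C 0) L (pre ++ post.map cln)) := by
  have h1 := ra_run (prog := prog) L pre post h
  rw [hd] at h1
  refine h1.trans ?_
  refine (turn (q' := .NLd) (by rfl)).reach.trans ?_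
  have := nl_home prog L (pre ++ post.map cln) [] (by simp [h])
  rwa [List.append_nil] at this

/-- Over one dead cell. -/
theorem fa_one (L : Str) (pre : List Cell) (a b : Cell) (r : List Cell) (ha : a.a = false) :
    Reach (del prog) (Ac .FA L pre (a :: b :: r)) (Ac .FA L (pre ++ [cln a]) (b :: r)) := by
  rcases a with ⟨v, a, d⟩
  rcases b with ⟨v', a', d'⟩
  change a = false at ha
  subst ha
  simp only [Ac, rt_cons, lefts_snoc, eb_append_singleton, cln]
  refine ⟨4, ?_⟩
  cases d <;> cases v' <;> rfl

/-- Over dead cells. -/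
theorem fa_part (mid : List Cell) (L : Str) (pre : List Cell) (c : Cell) (post : List Cell) (hm : ∀ x ∈ mid, x.a = false) :
    Reach (del prog) (Ac .FA L pre (mid ++ c :: post)) (Ac .FA L (pre ++ mid.map cln) (c :: post)) := by
  induction mid generalizing pre with
  | nil => simpa using Reach.refl _
  | cons a mid ih =>
    have h1 : Reach (del prog) (Ac .FA L pre ((a :: mid) ++ c :: post)) (Ac .FA L (pre ++ [cln a]) (mid ++ c :: post)) := by
      cases mid with
      | nil => exact fa_one L pre a c post (hm a List.mem_cons_self)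
      | cons b mid => exact fa_one L pre a b _ (hm a List.mem_cons_self)
    refine h1.trans ?_
    have := ih (pre ++ [cln a]) (fun x hx => hm x (List.mem_cons_of_mem _ hx))
    simpa using this

/-- No alive cell. -/
theorem fa_end (mid : List Cell) (hne : mid ≠ []) (L : Str) (pre : List Cell) (hm : ∀ x ∈ mid, x.a = false) :
    Reach (del prog) (Ac .FA L pre mid) (Ec .FE L (pre ++ mid.map cln) []) := by
  obtain ⟨m, c, rfl⟩ : ∃ m c, mid = m ++ [c] := ⟨_, _, (List.dropLast_append_getLast hne).symm⟩
  refine (fa_part m L pre c [] (fun x hx => hm x (by simp [hx]))).trans ?_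
  have hc : c.a = false := hm c (by simp)
  rcases c with ⟨v, a, d⟩
  change a = false at hc
  subst hc
  rw [List.map_append, ← List.append_assoc]
  simp only [List.map_cons, List.map_nil, Ec, lefts_snoc, Ac, rt_nil, cln]
  refine ⟨2, ?_⟩
  cases d <;> rfl

/-- Back to the bit `v` of cell 0. -/
theorem al_run (L : Str) (pre : List Cell) (c : Cell) (post : List Cell) (hp : ∀ x ∈ pre, x.a = true ∧ x.d = true) :
    Reach (del prog) (Ec .ALe L pre (c :: post)) (Vc .RVf L [] (pre ++ c :: post)) := by
  have h0 : ∀ cs : List Cell, cs ≠ [] → Reach (del prog) (Ec .ALe L [] cs) (Vc .RVf L [] cs) := by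
    intro cs hcs
    obtain ⟨x, xs, rfl⟩ := List.exists_cons_of_ne_nil hcs
    exact (Reach1.right (w := false) (q' := St.RVf) (by rfl)).reach
  rcases List.eq_nil_or_concat pre with rfl | ⟨m, x, rfl⟩
  · exact h0 _ (by simp)
  · rw [List.concat_eq_append] at hp ⊢
    have h1 : Reach (del prog) (Ec .ALe L (m ++ [x]) (c :: post)) (Dc .ALd L (m ++ [x]) (c :: post)) := by
      rw [Ec, eb_append_singleton]
      exact (Reach1.to_left (w := true) (q' := St.ALd) (by rfl)).reach
    refine h1.trans ?_
    have h2 := (pass_AL prog).run (m ++ [x]) (by simp) () L [] (c :: post) hp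
    rw [scan_id, List.reverse_reverse, List.nil_append] at h2
    exact h2.trans (h0 _ (by simp))

/-- Flip the first bit. -/
def flipH : List Cell → List Cell
  | [] => []
  | c :: cs => ⟨!c.v, c.a, c.d⟩ :: cs

theorem rvf_run (L : Str) (cs : List Cell) (hne : cs ≠ []) (hd : ld cs = false) : Reach (del prog) (Vc .RVf L [] cs) (Home (.C 0) L ((flipH cs).map cln)) := by
  obtain ⟨c, cs, rfl⟩ := List.exists_cons_of_ne_nil hne
  have h1 : Reach (del prog) (Vc .RVf L [] (c :: cs)) (Ac .RA L [] (flipH (c :: cs))) := by
    rcases c with ⟨v, a, d⟩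
    cases v <;> exact (Reach1.right (by rfl)).reach
  refine h1.trans ?_
  have hd' : ld (flipH (c :: cs)) = false := by rw [← hd]; rfl
  have := ra_home (prog := prog) L [] (flipH (c :: cs)) (by simp [flipH]) hd'
  rwa [List.nil_append] at this

/-- An alive cell is found. -/
theorem fa_found (mid : List Cell) (L : Str) (c : Cell) (post : List Cell) (hm : ∀ x ∈ mid, x.a = false) (hc : c.a = true) (hd : ld (c :: post) = false) :
    Reach (del prog) (Ac .FA L [] (mid ++ c :: post))
      (Home (.C 0) L ((if c.v then flipH (mid ++ c :: post) else mid ++ c :: post).map cln)) := by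
  refine (fa_part mid L [] c post hm).trans ?_
  rw [List.nil_append]
  rcases c with ⟨v, a, d⟩
  change a = true at hc
  subst hc
  refine (show Reach (del prog) (Ac .FA L (mid.map cln) (⟨v, true, d⟩ :: post)) (Vc .GV L (mid.map cln) (⟨v, true, d⟩ :: post)) from
    (Reach1.left (w := true) (q' := St.GV) (by rfl)).reach).trans ?_
  cases v with
  | false =>
    refine (show Reach (del prog) (Vc .GV L (mid.map cln) (⟨false, true, d⟩ :: post)) (Ac .RA L (mid.map cln) (⟨false, true, d⟩ :: post)) from
      (Reach1.right (w := false) (q' := St.RA) (by rfl)).reach).trans ?_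
    have := ra_home (prog := prog) L (mid.map cln) (⟨false, true, d⟩ :: post) (by simp) hd
    rw [← List.map_append] at this
    simpa using this
  | true =>
    refine (show Reach (del prog) (Vc .GV L (mid.map cln) (⟨true, true, d⟩ :: post)) (Ec .ALe L (mid.map cln) (⟨true, true, d⟩ :: post)) from
      (Reach1.left (w := true) (q' := St.ALe) (by rfl)).reach).trans ?_
    refine (al_run L (mid.map cln) ⟨true, true, d⟩ post (by
      intro x hx
      obtain ⟨y, _, rfl⟩ := List.mem_map.1 hx
      exact ⟨rfl, rfl⟩)).trans ?_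
    have h3 := rvf_run (prog := prog) L (mid.map cln ++ ⟨true, true, d⟩ :: post) (by simp) (by rw [ld_append (by simp)]; exact hd)
    refine h3.trans ?_
    have e : (flipH (mid.map cln ++ ⟨true, true, d⟩ :: post)).map cln = (flipH (mid ++ ⟨true, true, d⟩ :: post)).map cln := by
      cases mid with
      | nil => rfl
      | cons x mid => simp [flipH, cln]
    rw [e]
    simpa using Reach.refl _

/-- Set the first bit to 0. -/
def clrH : List Cell → List Cell
  | [] => []
  | c :: cs => ⟨false, c.a, c.d⟩ :: cs

/-- Clear `m`, from the last cell. -/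
theorem cl_run (L : Str) (cs : List Cell) (hne : cs ≠ []) (hp : ∀ x ∈ cs, x.a = true ∧ x.d = true) : Reach (del prog) (Dc .CLd L cs []) (Home (.C 0) L (clrH cs)) := by
  have h2 := (pass_CL prog).run cs hne () L [] [] hp
  rw [scan_id, List.reverse_reverse, List.nil_append, List.append_nil] at h2
  refine h2.trans ?_
  obtain ⟨c, cs, rfl⟩ := List.exists_cons_of_ne_nil hne
  rcases c with ⟨v, a, d⟩
  refine (show Reach (del prog) (Ec .CLe L [] (⟨v, a, d⟩ :: cs)) (Vc .CV L [] (⟨v, a, d⟩ :: cs)) from
    (Reach1.right (w := false) (q' := St.CV) (by rfl)).reach).trans ?_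
  have h4 : Reach (del prog) (Vc .CV L [] (⟨v, a, d⟩ :: cs)) ⟨.NLe, L, cons false (cons false (cons a (cons d (rt cs))))⟩ := by
    cases v <;> exact (Reach1.left (by rfl)).reach
  refine h4.trans ?_
  exact (Reach1.to_left (w := false) (q' := St.C 0) (by rfl)).reach

/-- No alive cell is found. -/
theorem fa_missing (mid : List Cell) (hne : mid ≠ []) (L : Str) (hm : ∀ x ∈ mid, x.a = false) :
    Reach (del prog) (Ac .FA L [] mid) (Home (.C 0) L (clrH (mid.map cln))) := by
  refine (fa_end mid hne L [] hm).trans ?_
  rw [List.nil_append]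
  refine (turn (q' := .CLd) (by rfl)).reach.trans ?_
  exact cl_run L (mid.map cln) (by simp [hne]) (by
    intro x hx
    obtain ⟨y, _, rfl⟩ := List.mem_map.1 hx
    exact ⟨rfl, rfl⟩)

end Pool.Agent.Helper19.ZH
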