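import Pool.Agent.Helper19.ZH.Dfs

/-!
# Project ZH (MP_f907b0): the search without cutting (helper64's variant)

Bit strings are lists with the LAST bit first. A node `b` is tested by `P` (violation). If there is none, the node `false :: b` is next, otherwise the string is incremented IN PLACE (the length stays;
no carry at the end: the search ends). THEOREMS `inc_never` (a branch without violated initial segment exists: the search does not end) and `inc_ends` (persistent violations: the search ends).
-/

set_option autoImplicit false

namespace Pool.Agent.Helper19.ZH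

/-- The increment in place (last bit first, so the head is the least significant bit). -/
def inc : List Bool → Option (List Bool)
  | [] => none
  | false :: b => some (true :: b)
  | true :: b => (inc b).map (fun c => false :: c)

/-- One round of the search. -/
def step2 (P : List Bool → Prop) [DecidablePred P] (b : List Bool) : Option (List Bool) :=
  if P b then inc b else some (false :: b)

/-- The value of a bit string, head = least significant. -/
def vl : List Bool → ℕ
  | [] => 0
  | x :: b => x.toNat + 2 * vl b

theorem vl_lt (b : List Bool) : vl b < 2 ^ b.length := by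
  induction b with
  | nil => simp [vl]
  | cons x b ih =>
    rw [vl, List.length_cons, pow_succ]
    have : x.toNat ≤ 1 := Bool.toNat_le x
    omega

theorem inc_some {b c : List Bool} (h : inc b = some c) : c.length = b.length ∧ vl c = vl b + 1 := by
  induction b generalizing c with
  | nil => cases h
  | cons x b ih =>
    cases x with
    | false =>
      rw [inc] at h
      cases h
      simp [vl]
      omega
    | true =>
      rw [inc] at h
      cases hb : inc b with
      | none => rw [hb] at h; cases h
      | some d =>
        rw [hb] at h
        cases h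
        obtain ⟨h1, h2⟩ := ih hb
        simp only [vl, List.length_cons, h1, h2, Bool.toNat_true, Bool.toNat_false]
        exact ⟨trivial, by ring⟩

/-- Incrementing a string with the initial segment `c`: the initial segment stays or is incremented itself. -/
theorem inc_append (u c : List Bool) : (∃ v, v.length = u.length ∧ inc (u ++ c) = some (v ++ c)) ∨ ∃ v, v.length = u.length ∧ inc (u ++ c) = (inc c).map (fun d => v ++ d) := by
  induction u with
  | nil => exact Or.inr ⟨[], rfl, by simp⟩
  | cons x u ih =>
    cases x with
    | false => exact Or.inl ⟨true :: u, rfl, rfl⟩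
    | true =>
      rcases ih with ⟨v, hv, h⟩ | ⟨v, hv, h⟩
      · exact Or.inl ⟨false :: v, by simp [hv], by rw [List.cons_append, inc, h]; rfl⟩
      · refine Or.inr ⟨false :: v, by simp [hv], ?_⟩
        rw [List.cons_append, inc, h, Option.map_map]
        rfl

section

variable (P : List Bool → Prop) [DecidablePred P]

/-- The iteration. -/
def its2 (k : ℕ) (x : Option (List Bool)) : Option (List Bool) := (fun x : Option (List Bool) => x.bind (step2 P))^[k] x

theorem its2_add (k m : ℕ) (x : Option (List Bool)) : its2 P (k + m) x = its2 P m (its2 P k x) := by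
  unfold its2
  rw [Nat.add_comm, Function.iterate_add_apply]

theorem its2_one (b : List Bool) : its2 P 1 (some b) = step2 P b := rfl

theorem its2_none (k : ℕ) : its2 P k none = none := by
  induction k with
  | zero => rfl
  | succ k ih =>
    rw [Nat.add_comm, its2_add]
    exact ih

theorem inc_left {β : ℕ → Bool} {j : ℕ} (hj : β j = true) (u : List Bool) : ∃ b, inc (u ++ false :: pre β j) = some b ∧ Inv β b := by
  rcases inc_append u (false :: pre β j) with ⟨v, _, h⟩ | ⟨v, _, h⟩
  · exact ⟨_, h, Or.inr ⟨v, j, rfl, hj⟩⟩
  · have h' : inc (u ++ false :: pre β j) = some (v ++ true :: pre β j) := by rw [h]; rfl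
    refine ⟨_, h', ?_⟩
    -- `v ++ pre β (j + 1)`; the string `v` consists of zeros
    have hv : ∀ (u v c d : List Bool), inc (u ++ c) = some (v ++ d) → v.length = u.length → d ≠ c → c.length = d.length → ∀ x ∈ v, x = false := by
      intro u
      induction u with
      | nil =>
        intro v c d _ hl _ _ x hx
        rw [List.length_nil, List.length_eq_zero_iff] at hl
        rw [hl] at hx
        cases hx
      | cons a u ih =>
        intro v c d h hl hne hcd x hx
        cases v with
        | nil => cases hl
        | cons w v =>
          cases a with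
          | false =>
            rw [List.cons_append, inc, List.cons_append] at h
            have h1 := Option.some.inj h
            have h2 : u ++ c = v ++ d := (List.cons.inj h1).2
            have h3 := List.append_inj h2 (by simpa using hl.symm)
            exact absurd h3.2.symm hne
          | true =>
            rw [List.cons_append, inc, List.cons_append] at h
            cases hb : inc (u ++ c) with
            | none => rw [hb] at h; cases h
            | some e =>
              rw [hb] at h
              have h1 := Option.some.inj h
              have h2 := List.cons.inj h1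
              rcases List.mem_cons.1 hx with hx | hx
              · rw [hx, ← h2.1]
              · exact ih v c d (by rw [hb, h2.2]) (by simpa using hl) hne hcd x hx
    have hv0 := hv u v _ _ h' (by
      have := (inc_some h').1
      simp only [List.length_append, List.length_cons, length_pre] at this
      omega) (by simp) (by simp)
    -- a string of zeros above a good initial segment
    have key : ∀ v : List Bool, (∀ x ∈ v, x = false) → ∀ i, Inv β (v ++ pre β i) := by
      intro v
      induction v with
      | nil => exact fun _ i => Or.inl ⟨i, rfl⟩
      | cons x v ih =>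
        intro hv i
        have hx : x = false := hv x List.mem_cons_self
        rcases ih (fun y hy => hv y (List.mem_cons_of_mem _ hy)) i with ⟨n, hn⟩ | ⟨w, m, hw, hm⟩
        · rw [List.cons_append, hn, hx]
          cases h : β n with
          | false => exact Or.inl ⟨n + 1, by rw [pre, h]⟩
          | true => exact Or.inr ⟨[], n, rfl, h⟩
        · exact Or.inr ⟨x :: w, m, by rw [List.cons_append, hw, List.cons_append], hm⟩
    have := key v hv0 (j + 1)
    rwa [pre, hj] at this

theorem inv_step2 {β : ℕ → Bool} (hβ : ∀ n, ¬ P (pre β n)) {b : List Bool} (hb : Inv β b) : ∃ b', step2 P b = some b' ∧ Inv β b' := by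
  unfold step2
  by_cases hP : P b
  · rw [if_pos hP]
    rcases hb with ⟨n, rfl⟩ | ⟨u, j, rfl, hj⟩
    · exact absurd hP (hβ n)
    · exact inc_left hj u
  · rw [if_neg hP]
    refine ⟨_, rfl, ?_⟩
    rcases hb with ⟨n, rfl⟩ | ⟨u, j, rfl, hj⟩
    · cases h : β n with
      | false => exact Or.inl ⟨n + 1, by rw [pre, h]⟩
      | true => exact Or.inr ⟨[], n, rfl, h⟩
    · exact Or.inr ⟨false :: u, j, rfl, hj⟩

/-- If there is a branch without violated initial segment, the search does not end. -/
theorem inc_never {β : ℕ → Bool} (hβ : ∀ n, ¬ P (pre β n)) (n₀ : ℕ) (h₀ : ∀ i, i < n₀ → β i = false) (k : ℕ) : its2 P k (some (List.replicate n₀ false)) ≠ none := by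
  have h : ∃ b, its2 P k (some (List.replicate n₀ false)) = some b ∧ Inv β b := by
    induction k with
    | zero =>
      refine ⟨_, rfl, Or.inl ⟨n₀, ?_⟩⟩
      induction n₀ with
      | zero => rfl
      | succ n ih => rw [List.replicate_succ, pre, h₀ n (Nat.lt_succ_self n), ih (fun i hi => h₀ i (Nat.lt_succ_of_lt hi))]
    | succ k ih =>
      obtain ⟨b, hb, hi⟩ := ih
      obtain ⟨b', hb', hi'⟩ := inv_step2 P hβ hi
      exact ⟨b', by rw [its2_add, hb, its2_one, hb'], hi'⟩
  obtain ⟨b, hb, _⟩ := h
  rw [hb]
  exact Option.some_ne_none b

/-- The search started at `b` stays for ever among the strings with the initial segment `c`. -/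
def Stays (b c : List Bool) : Prop := ∀ k, ∃ u, its2 P k (some b) = some (u ++ c)

theorem Stays.add {b c : List Bool} (h : Stays P b c) (k : ℕ) {b' : List Bool} (hb : its2 P k (some b) = some b') : Stays P b' c := by
  intro m
  obtain ⟨u, hu⟩ := h (k + m)
  exact ⟨u, by rw [← hb, ← its2_add, hu]⟩

/-- A search that does not end reaches every larger length. -/
theorem grows {b : List Bool} (h : ∀ k, its2 P k (some b) ≠ none) {n : ℕ} (hn : b.length ≤ n) : ∃ k c, its2 P k (some b) = some c ∧ c.length = n := by
  induction n, hn using Nat.le_induction with
  | base => exact ⟨0, b, rfl, rfl⟩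
  | succ n hn ih =>
    obtain ⟨k, c, hk, hc⟩ := ih
    by_contra hcon
    push Not at hcon
    have key : ∀ m, ∃ d, its2 P (k + m) (some b) = some d ∧ d.length = n ∧ vl d = vl c + m := by
      intro m
      induction m with
      | zero => exact ⟨c, hk, hc, rfl⟩
      | succ m ih =>
        obtain ⟨d, hd, hdn, hdv⟩ := ih
        have h1 : its2 P (k + (m + 1)) (some b) = step2 P d := by rw [← Nat.add_assoc, its2_add, hd, its2_one]
        by_cases hP : P d
        · cases hi : inc d with
          | none => exact absurd (by rw [h1, step2, if_pos hP, hi]) (h (k + (m + 1)))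
          | some e =>
            obtain ⟨h2, h3⟩ := inc_some hi
            exact ⟨e, by rw [h1, step2, if_pos hP, hi], by rw [h2, hdn], by rw [h3, hdv]; ring⟩
        · exact absurd (by rw [List.length_cons, hdn]) (hcon (k + (m + 1)) (false :: d) (by rw [h1, step2, if_neg hP]))
    obtain ⟨d, _, hdn, hdv⟩ := key (2 ^ n)
    have := vl_lt d
    rw [hdn, hdv] at this
    omega

theorem Stays.ne_none {b c : List Bool} (h : Stays P b c) (k : ℕ) : its2 P k (some b) ≠ none := by
  obtain ⟨u, hu⟩ := h k
  rw [hu]
  exact Option.some_ne_none _

theorem stays_true {c b : List Bool} (h : Stays P b c) {u : List Bool} (hb : b = u ++ true :: c) : Stays P b (true :: c) := by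
  intro k
  induction k with
  | zero => exact ⟨u, by rw [hb]; rfl⟩
  | succ k ih =>
    obtain ⟨v, hv⟩ := ih
    obtain ⟨w, hw⟩ := h (k + 1)
    have h1 : its2 P (k + 1) (some b) = step2 P (v ++ true :: c) := by rw [its2_add, hv, its2_one]
    by_cases hP : P (v ++ true :: c)
    · rw [h1, step2, if_pos hP] at hw ⊢
      rcases inc_append v (true :: c) with ⟨z, _, hz⟩ | ⟨z, hz', hz⟩
      · exact ⟨z, hz⟩
      · exfalso
        rw [inc] at hz
        cases hc : inc c with
        | none => rw [hz, hc] at hw; cases hw
        | some d =>
          rw [hz, hc] at hw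
          have h2 : z ++ false :: d = w ++ c := Option.some.inj hw
          obtain ⟨h3, h4⟩ := inc_some hc
          have h5 : (z ++ [false]) ++ d = w ++ c := by rw [← h2]; simp
          have h6 := List.append_inj_right' h5 h3
          rw [h6] at h4
          omega
    · exact ⟨false :: v, by rw [h1, step2, if_neg hP]; rfl⟩

theorem stays_step {b c : List Bool} (h : Stays P b c) : ∃ b' x, Stays P b' (x :: c) := by
  obtain ⟨k, d, hk, hd⟩ := grows P (fun k => h.ne_none P k) (n := b.length + c.length + 1) (by omega)
  have h1 : Stays P d c := h.add P k hk
  by_cases ht : ∃ m u, its2 P m (some d) = some (u ++ true :: c)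
  · obtain ⟨m, u, hm⟩ := ht
    exact ⟨_, true, stays_true P (h1.add P m hm) rfl⟩
  · refine ⟨d, false, ?_⟩
    intro m
    obtain ⟨u, hu⟩ := h1 m
    have hl : ∀ m e, its2 P m (some d) = some e → d.length ≤ e.length := by
      intro m
      induction m with
      | zero => intro e he; cases he; exact le_rfl
      | succ m ih =>
        intro e he
        obtain ⟨e', he'⟩ := Option.ne_none_iff_exists'.1 (h1.ne_none P m)
        have h2 := ih e' he'
        rw [its2_add, he', its2_one, step2] at he
        by_cases hP : P e'
        · rw [if_pos hP] at he
          rw [(inc_some he).1]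
          exact h2
        · rw [if_neg hP] at he
          cases he
          rw [List.length_cons]
          omega
    have h3 := hl m _ hu
    rw [hd, List.length_append] at h3
    rcases List.eq_nil_or_concat u with hnil | ⟨v, x, hx⟩
    · rw [hnil, List.length_nil] at h3
      omega
    · have hu' : u ++ c = v ++ x :: c := by rw [hx]; simp
      cases x with
      | true => exact absurd ⟨m, v, by rw [hu, hu']⟩ ht
      | false => exact ⟨v, by rw [hu, hu']⟩

/-- If every branch has an initial segment below which, at infinitely many levels, every string is violated, the search ends. -/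
theorem inc_ends (h : ∀ β : ℕ → Bool, ∃ N, ∀ M, ∃ n, M ≤ n ∧ ∀ u : List Bool, u.length = n → P (u ++ pre β N)) (b₀ : List Bool) : ∃ k, its2 P k (some b₀) = none := by
  classical
  by_contra hcon
  push Not at hcon
  have h0 : ∃ b, Stays P b [] := ⟨b₀, fun k => by
    obtain ⟨e, he⟩ := Option.ne_none_iff_exists'.1 (hcon k)
    exact ⟨e, by rw [he, List.append_nil]⟩⟩
  -- a branch in which the search stays
  let nxt : {c : List Bool // ∃ b, Stays P b c} → Bool := fun c => if ∃ b, Stays P b (true :: c.1) then true else false
  have hnxt : ∀ c : {c : List Bool // ∃ b, Stays P b c}, ∃ b, Stays P b (nxt c :: c.1) := by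
    intro c
    by_cases ht : ∃ b, Stays P b (true :: c.1)
    · have : nxt c = true := if_pos ht
      rw [this]
      exact ht
    · have : nxt c = false := if_neg ht
      rw [this]
      obtain ⟨b, hb⟩ := c.2
      obtain ⟨b', x, hx⟩ := stays_step P hb
      cases x with
      | true => exact absurd ⟨b', hx⟩ ht
      | false => exact ⟨b', hx⟩
  let br : ℕ → {c : List Bool // ∃ b, Stays P b c} := fun n => Nat.rec ⟨[], h0⟩ (fun _ c => ⟨nxt c :: c.1, hnxt c⟩) n
  have hbr : ∀ n, pre (fun i => nxt (br i)) n = (br n).1 := by
    intro n
    induction n with
    | zero => rfl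
    | succ n ih => rw [pre, ih]
  obtain ⟨N, hN⟩ := h (fun i => nxt (br i))
  obtain ⟨b, hb⟩ := (br N).2
  rw [← hbr N] at hb
  obtain ⟨n, hn, hP⟩ := hN b.length
  obtain ⟨k, c, hk, hc⟩ := grows P (fun k => hb.ne_none P k) (n := n + N) (by omega)
  have hc' : Stays P c (pre (fun i => nxt (br i)) N) := hb.add P k hk
  have key : ∀ m, ∃ d, its2 P m (some c) = some d ∧ d.length = n + N ∧ vl d = vl c + m := by
    intro m
    induction m with
    | zero => exact ⟨c, rfl, hc, rfl⟩
    | succ m ih =>
      obtain ⟨d, hd, hdn, hdv⟩ := ih
      obtain ⟨u, hu⟩ := hc' m
      rw [hd] at hu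
      have hu' := Option.some.inj hu
      have hPd : P d := by
        rw [hu']
        apply hP
        have := congrArg List.length hu'
        rw [hdn, List.length_append, length_pre] at this
        omega
      have h1 : its2 P (m + 1) (some c) = inc d := by rw [its2_add, hd, its2_one, step2, if_pos hPd]
      obtain ⟨e, he⟩ := Option.ne_none_iff_exists'.1 (hc'.ne_none P (m + 1))
      have h2 : inc d = some e := by rw [← h1, he]
      obtain ⟨h3, h4⟩ := inc_some h2
      exact ⟨e, he, by rw [h3, hdn], by rw [h4, hdv]; ring⟩
  obtain ⟨d, _, hdn, hdv⟩ := key (2 ^ (n + N))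
  have := vl_lt d
  rw [hdn, hdv] at this
  omega

end

end Pool.Agent.Helper19.ZH
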