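import Pool.Agent.Helper19.ZH.End

/-!
# Project ZH (MP_f907b0): the machine and the search

`loop_iff`: a machine `δ'` that extends `del prog` (after identification of states) stops, started on the blank tape, iff the search of `Inc.lean` ends; `viol b` is the result of the test of `b`
(first bit first).
`halts_iff_of`: the same with the two facts about the text that come from logic.
-/

set_option autoImplicit false

namespace Pool.Agent.Helper19.ZH

/-- Renaming of states. -/
def mapC {σ τ : Type} (f : σ → τ) (c : C σ) : C τ := ⟨f c.q, c.L, c.R⟩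

section

variable {σ τ : Type} {δ : σ → Bool → Option (Bool × Bool × σ)} {δ' : τ → Bool → Option (Bool × Bool × τ)} {f : σ → τ} {ok : σ → Prop}

theorem stps_map (h : ∀ q, ok q → ∀ b w d r, δ q b = some (w, d, r) → ok r ∧ δ' (f q) b = some (w, d, f r)) (k : ℕ) {c d : C σ} (hc : ok c.q) (hk : stps δ k c = some d) :
    stps δ' k (mapC f c) = some (mapC f d) ∧ ok d.q := by
  induction k generalizing c with
  | zero =>
    simp only [stps, Option.some.injEq] at hk
    subst hk
    exact ⟨rfl, hc⟩
  | succ k ih =>
    simp only [stps] at hk ⊢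
    cases hs : δ c.q (hd c.R) with
    | none => simp [stp, hs] at hk
    | some r =>
      obtain ⟨w, x, q'⟩ := r
      obtain ⟨h1, h2⟩ := h _ hc _ _ _ _ hs
      cases x with
      | true =>
        have e1 : stp δ c = some ⟨q', cons w c.L, tl c.R⟩ := by simp [stp, hs]
        have e2 : stp δ' (mapC f c) = some (mapC f ⟨q', cons w c.L, tl c.R⟩) := by simp [stp, mapC, h2]
        rw [e1, Option.bind_some] at hk
        rw [e2, Option.bind_some]
        exact ih h1 hk
      | false =>
        have e1 : stp δ c = some ⟨q', tl c.L, cons (hd c.L) (cons w (tl c.R))⟩ := by simp [stp, hs]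
        have e2 : stp δ' (mapC f c) = some (mapC f ⟨q', tl c.L, cons (hd c.L) (cons w (tl c.R))⟩) := by simp [stp, mapC, h2]
        rw [e1, Option.bind_some] at hk
        rw [e2, Option.bind_some]
        exact ih h1 hk

theorem Reach.map (h : ∀ q, ok q → ∀ b w d r, δ q b = some (w, d, r) → ok r ∧ δ' (f q) b = some (w, d, f r)) {c d : C σ} (hc : ok c.q) (hr : Reach δ c d) :
    Reach δ' (mapC f c) (mapC f d) := by
  obtain ⟨k, hk⟩ := hr
  exact ⟨k, (stps_map h k hc hk).1⟩

theorem Reach1.map (h : ∀ q, ok q → ∀ b w d r, δ q b = some (w, d, r) → ok r ∧ δ' (f q) b = some (w, d, f r)) {c d : C σ} (hc : ok c.q) (hr : Reach1 δ c d) :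
    Reach1 δ' (mapC f c) (mapC f d) := by
  obtain ⟨k, hk⟩ := hr
  exact ⟨k, (stps_map h (k + 1) hc hk).1⟩

end

/-- If there is a branch without violated initial segment, the search does not end. -/
theorem inc_never' (P : List Bool → Prop) [DecidablePred P] {β : ℕ → Bool} (hβ : ∀ n, ¬ P (pre β n)) {b₀ : List Bool} (h₀ : Inv β b₀) (k : ℕ) : its2 P k (some b₀) ≠ none := by
  have key : ∀ k, ∃ b, its2 P k (some b₀) = some b ∧ Inv β b := by
    intro k
    induction k with
    | zero => exact ⟨b₀, rfl, h₀⟩
    | succ k ih =>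
      obtain ⟨b, hb, hi⟩ := ih
      obtain ⟨b', hb', hi'⟩ := inv_step2 P hβ hi
      exact ⟨b', by rw [its2_add, hb, its2_one, hb'], hi'⟩
  obtain ⟨b, hb, _⟩ := key k
  rw [hb]
  exact Option.some_ne_none _

/-- The configuration of a node of the search (last bit first). -/
def node (c : List Bool) : C St := Home (.C 0) (Z0 1) (Cln false c.reverse)

section

variable {prog : List Tok} {τ : Type} {δ' : τ → Bool → Option (Bool × Bool × τ)} {f : St → τ} {ok : St → Prop}

theorem node_q (c : List Bool) : (node c).q = .C 0 := by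
  rw [node, cln_cons]
  rfl

/-- The machine and the search. -/
theorem loop_iff (h : ∀ q, ok q → ∀ b w d r, del prog q b = some (w, d, r) → ok r ∧ δ' (f q) b = some (w, d, f r)) (hRV : ok .RV) (hC : ok (.C 0))
    (hI : δ' (f .Ie) false = none) {viol : List Bool → Bool} (hv : ∀ b, Runs prog b 0 (false, 0, []) (viol b)) :
    Stops δ' ⟨f .RV, blank, blank⟩ ↔ ∃ k, its2 (fun c => viol c.reverse = true) k (some [false]) = none := by
  have h0 : Reach δ' ⟨f .RV, blank, blank⟩ (mapC f (node [false])) := (start_home (prog := prog)).map h (c := ⟨.RV, blank, blank⟩) hRV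
  rw [h0.stops_iff]
  -- one test
  have ht : ∀ c, Reach (del prog) (node c) (Home (.C 0) blank (Cln (viol c.reverse) c.reverse)) := by
    intro c
    exact runs_ok (hv _) (ds := List.replicate (c.reverse.length + 1) true) (DI.zero _)
  refine stops_iff (δ := δ') (step2 (fun c => viol c.reverse = true)) (fun c => mapC f (node c)) (fun _ => True) ?_ ?_ [false] trivial
  · intro c c' _ hc
    refine ⟨trivial, ?_⟩
    refine Reach1.map h (by rw [node_q]; exact hC) ?_
    unfold step2 at hc
    have h2 := ht c
    by_cases hP : viol c.reverse = true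
    · rw [if_pos hP] at hc
      rw [hP] at h2
      refine h2.trans_reach1 ?_
      rcases go_inc (prog := prog) c.reverse with ⟨d, hd, hr⟩ | ⟨hd, _⟩
      · rw [List.reverse_reverse, hc] at hd
        cases hd
        exact hr
      · rw [List.reverse_reverse, hc] at hd
        cases hd
    · rw [if_neg hP] at hc
      cases hc
      rw [Bool.not_eq_true] at hP
      rw [hP] at h2
      refine h2.trans_reach1 ?_
      have := go_append (prog := prog) c.reverse
      rw [node, List.reverse_cons]
      exact this
  · intro c _ hc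
    unfold step2 at hc
    have h2 := ht c
    by_cases hP : viol c.reverse = true
    · rw [if_pos hP] at hc
      rw [hP] at h2
      rcases go_inc (prog := prog) c.reverse with ⟨d, hd, _⟩ | ⟨_, L, R, hr⟩
      · rw [List.reverse_reverse, hc] at hd
        cases hd
      · have h1 : Reach δ' (mapC f (node c)) (mapC f ⟨.Ie, L, cons false R⟩) := Reach.map h (by rw [node_q]; exact hC) (h2.trans hr)
        exact h1.stops (stops_of_none hI)
    · rw [if_neg hP] at hc
      cases hc

/-- The machine halts iff `G` is false. -/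
theorem halts_iff_of (h : ∀ q, ok q → ∀ b w d r, del prog q b = some (w, d, r) → ok r ∧ δ' (f q) b = some (w, d, f r)) (hRV : ok .RV) (hC : ok (.C 0))
    (hI : δ' (f .Ie) false = none) {viol : List Bool → Bool} (hv : ∀ b, Runs prog b 0 (false, 0, []) (viol b)) {G : Prop}
    (hgood : G → ∃ β : ℕ → Bool, ∀ n, viol (pre β n).reverse ≠ true)
    (hbad : ¬ G → ∀ β : ℕ → Bool, ∃ N, ∀ M, ∃ n, M ≤ n ∧ ∀ u : List Bool, u.length = n → viol (u ++ pre β N).reverse = true) :
    Stops δ' ⟨f .RV, blank, blank⟩ ↔ ¬ G := by
  rw [loop_iff h hRV hC hI hv]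
  constructor
  · rintro ⟨k, hk⟩ hG
    obtain ⟨β, hβ⟩ := hgood hG
    refine inc_never' (fun c => viol c.reverse = true) hβ (b₀ := [false]) ?_ k hk
    cases h0 : β 0 with
    | false => exact Or.inl ⟨1, by rw [pre, pre, h0]⟩
    | true => exact Or.inr ⟨[], 0, rfl, h0⟩
  · intro hG
    exact inc_ends (fun c => viol c.reverse = true) (hbad hG) [false]

end

end Pool.Agent.Helper19.ZH
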