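import Pool.Agent.Helper19.ZH.Copy
import Pool.Agent.Helper19.ZH.Inc

/-!
# Project ZH (MP_f907b0): abstract semantics of the text

A test of the string `b` (the values of the atoms number `1, ..., b.length`; the atom number 0 has the value 1): the instance is the number `n = b.length + 1`, its binary digits
`d i = n.testBit i` are read from the position `i`; `w` is the word emitted since the beginning of the atom, `m` the accumulator.
* `look b w`: the value of the atom number `num w`.
* `Step b t (m, i, w) (m', i', w')`: what the token `t` does.
* `Runs prog b p m i w out`: from the token number `p` on, the test ends with `out` (`true`: a rule is violated).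
-/

set_option autoImplicit false

namespace Pool.Agent.Helper19.ZH

open Pool.Agent.Helper62.ZH (Tree)

/-- The value of the atom with the index word `w`. -/
def look (b w : List Bool) : Option Bool := (true :: b)[num w]?

/-- The three ways to end an atom. -/
def opL (v : Option Bool) : Bool := v.getD false
def opJ (m : Bool) (v : Option Bool) : Bool := (v.map (fun v => m && !v)).getD false
def opX (m : Bool) (v : Option Bool) : Bool := (v.map (fun v => xor m v)).getD false

/-- The digits of the instance. -/
def dg (b : List Bool) (i : ℕ) : Bool := (b.length + 1).testBit i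

/-- One token. The state: accumulator, position in the digits, emitted word. -/
inductive Step (b : List Bool) : Tok → Bool × ℕ × List Bool → Bool × ℕ × List Bool → Prop
  | lit (s m i w) : Step b (.lit s) (m, i, w) (m, i, w ++ [s])
  | cp (ts m i j w) : ts ≠ [] → Rds (dg b) i ts j → Step b (.cp ts.length) (m, i, w) (m, j, w ++ bitss ts)
  | oc (ts m i j w) : ts ≠ [] → Rds (dg b) i ts j → Step b (.oc ts.length) (m, i, w) (m, j, w ++ true :: bitss ts)
  | sk (t m i j w) : Rd (dg b) i t j → Step b .sk (m, i, w) (m, j, w)
  | rw (m i w) : 0 < i → Step b .rw (m, i, w) (m, 0, w)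
  | opL (i w) : 0 < i → Step b .opL (false, i, w) (ZH.opL (look b w), 0, [])
  | opJ (m i w) : 0 < i → Step b .opJ (m, i, w) (ZH.opJ m (look b w), 0, [])
  | opX (m i w) : 0 < i → 0 < num w → Step b .opX (m, i, w) (ZH.opX m (look b w), 0, [])
  | xc (t m i j w) : 0 < i → 0 < num w → Rd (dg b) 0 t j → Step b .xc (m, i, w) (ZH.opX m (look b w), j, bits t)
  | jc (ts m i j w) : ts ≠ [] → 0 < i → Rds (dg b) 0 ts j → Step b (.jc ts.length) (m, i, w) (ZH.opJ m (look b w), j, bitss ts)

/-- The rest of a test from the token number `p` on; the last argument is the result (`true`: violation). -/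
inductive Runs (prog : List Tok) (b : List Bool) : ℕ → Bool × ℕ × List Bool → Bool → Prop
  | fi (p m) : prog[p]? = some .fi → Runs prog b p (m, 0, []) m
  | viol (p i w) : prog[p]? = some .opL → 0 < i → Runs prog b p (true, i, w) true
  | step (p t s s' out) : prog[p]? = some t → Step b t s s' → Runs prog b (p + 1) s' out → Runs prog b p s out

end Pool.Agent.Helper19.ZH
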