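import Pool.Agent.Helper19.ZH.Find
import Pool.Agent.Helper19.ZH.Sem

/-!
# Project ZH (MP_f907b0): the operations at the end of an atom
-/

set_option autoImplicit false

namespace Pool.Agent.Helper19.ZH

variable {prog : List Tok}

theorem fl_missing {n k r : ℕ} (h : n ≤ r) : fl n k r = List.replicate n false := by
  apply List.ext_getElem?
  intro i
  rw [fl_getElem?, List.getElem?_replicate]
  by_cases hi : i < n
  · rw [if_pos hi, if_pos hi]
    have h1 : i % 2 ^ k ≤ i := Nat.mod_le _ _
    have h2 : i % 2 ^ k ≠ r := by omega
    simp [h2]
  · rw [if_neg hi, if_neg hi]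

theorem fl_found {n k r : ℕ} (h : r < n) (hr : r < 2 ^ k) : ∃ rest, fl n k r = List.replicate r false ++ true :: rest := by
  have h1 : (fl n k r).take r = List.replicate r false := by rw [take_fl n k r r h.le, fl_missing le_rfl]
  have h2 : (fl n k r)[r]? = some true := by
    rw [fl_getElem?, if_pos h, Nat.mod_eq_of_lt hr]
    simp
  obtain ⟨h3, h4⟩ := List.getElem?_eq_some_iff.1 h2
  refine ⟨(fl n k r).drop (r + 1), ?_⟩
  conv_lhs => rw [← List.take_append_drop r (fl n k r), List.drop_eq_getElem_cons h3, h4, h1]

/-- The flags after the emission of `w`. -/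
theorem em_fl (n : ℕ) (w : List Bool) : em (List.replicate n true) w = fl n w.length (num w) := foldl_sv n w

theorem dead_mk {vs ds : List Bool} {c : Cell} {n : ℕ} (h : c ∈ mk vs (List.replicate n false) ds) : c.a = false := by
  induction vs generalizing ds n with
  | nil => simp [mk] at h
  | cons v vs ih =>
    cases n with
    | zero => simp [mk] at h
    | succ n => cases ds with
      | nil => simp [mk, List.replicate_succ] at h
      | cons d ds =>
        simp only [List.replicate_succ, mk, List.mem_cons] at h
        rcases h with rfl | h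
        · rfl
        · exact ih h

theorem cln_mk {vs as ds : List Bool} (h1 : as.length = vs.length) (h2 : ds.length = vs.length) : (mk vs as ds).map cln = mk vs (tt vs) (tt vs) := map_reset h1 h2

theorem flip_mk {v : Bool} {vs as ds : List Bool} (h1 : as.length = (v :: vs).length) (h2 : ds.length = (v :: vs).length) :
    (flipH (mk (v :: vs) as ds)).map cln = mk ((!v) :: vs) (tt (v :: vs)) (tt (v :: vs)) := by
  cases as with
  | nil => simp at h1
  | cons a as => cases ds with
    | nil => simp at h2
    | cons d ds =>
      have := cln_mk (vs := vs) (as := as) (ds := ds) (by simpa using h1) (by simpa using h2)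
      simp only [mk, flipH, List.map_cons, cln, tt, List.length_cons, List.replicate_succ] at this ⊢
      rw [show (List.map cln (mk vs as ds)) = _ from this]

theorem clr_mk {v : Bool} {vs : List Bool} : clrH (mk (v :: vs) (tt (v :: vs)) (tt (v :: vs))) = mk (false :: vs) (tt (v :: vs)) (tt (v :: vs)) := by
  simp [mk, clrH, tt, List.replicate_succ]

/-- The array with clean flags. -/
def Cln (m : Bool) (b : List Bool) : List Cell := mk (m :: b) (tt (m :: b)) (tt (m :: b))

theorem tt_cons (m m' : Bool) (b : List Bool) : tt (m :: b) = tt (m' :: b) := by simp [tt]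

/-- The bit of cell number `r`. -/
theorem found (L : Str) {m : Bool} {b as ds : List Bool} {r : ℕ} {rest : List Bool} (has : as = List.replicate r false ++ true :: rest) (h1 : as.length = (m :: b).length)
    (h2 : ds.length = (m :: b).length) (hl : ds.getLast? = some false) {v : Bool} (hv : (m :: b)[r]? = some v) :
    Reach (del prog) (Ac .FA L [] (mk (m :: b) as ds)) (Home (.C 0) L (Cln (xor m v) b)) := by
  obtain ⟨hr, hv'⟩ := List.getElem?_eq_some_iff.1 hv
  have e1 : m :: b = (m :: b).take r ++ v :: (m :: b).drop (r + 1) := by
    conv_lhs => rw [← List.take_append_drop r (m :: b), List.drop_eq_getElem_cons hr, hv']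
  have hrd : r < ds.length := by omega
  obtain ⟨d, hd⟩ : ∃ d, ds[r] = d := ⟨_, rfl⟩
  have e2 : ds = ds.take r ++ d :: ds.drop (r + 1) := by
    conv_lhs => rw [← List.take_append_drop r ds, List.drop_eq_getElem_cons hrd, hd]
  have hlen : ((m :: b).take r).length = r := by rw [List.length_take]; omega
  have hlen2 : (ds.take r).length = r := by rw [List.length_take]; omega
  have e3 : mk (m :: b) as ds = mk ((m :: b).take r) (List.replicate r false) (ds.take r) ++ ⟨v, true, d⟩ :: mk ((m :: b).drop (r + 1)) rest (ds.drop (r + 1)) := by
    conv_lhs => rw [e1, e2, has]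
    rw [mk_append (by simp [hlen]) (by rw [hlen, hlen2])]
    rfl
  have hld : ld (mk (m :: b) as ds) = false := ld_mk h1 h2 hl
  rw [e3, ld_append (by simp)] at hld
  have h5 := fa_found (prog := prog) (mk ((m :: b).take r) (List.replicate r false) (ds.take r)) L ⟨v, true, d⟩ (mk ((m :: b).drop (r + 1)) rest (ds.drop (r + 1)))
    (fun x hx => dead_mk hx) rfl hld
  rw [← e3] at h5
  refine h5.trans ?_
  cases v with
  | true =>
    simp only [if_true]
    rw [flip_mk h1 h2, Cln, Bool.xor_true]
    exact Reach.refl _
  | false =>
    simp only [Bool.false_eq_true, if_false]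
    rw [cln_mk h1 h2, Cln, Bool.xor_false]
    exact Reach.refl _

theorem missing (L : Str) {m : Bool} {b as ds : List Bool} {n : ℕ} (has : as = List.replicate n false) (h1 : as.length = (m :: b).length)
    (h2 : ds.length = (m :: b).length) : Reach (del prog) (Ac .FA L [] (mk (m :: b) as ds)) (Home (.C 0) L (Cln false b)) := by
  have := fa_missing (prog := prog) (mk (m :: b) as ds) (mk_ne_nil h1 h2 (by simp)) L (by
    intro x hx
    rw [has] at hx
    exact dead_mk hx)
  rw [cln_mk h1 h2, clr_mk] at this
  exact this

/-- The value of the atom and the bits of the cells. -/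
theorem look_pos {m : Bool} {b w : List Bool} (h : 0 < num w) : look b w = (m :: b)[num w]? := by
  obtain ⟨r, hr⟩ : ∃ r, num w = r + 1 := ⟨num w - 1, by omega⟩
  simp [look, hr]

section

variable {b w ds : List Bool} {i : ℕ}

theorem find_X (L : Str) (m : Bool) (hw : 0 < num w) (hds : DI (b.length + 1) i ds) (hi : 0 < i) :
    Reach (del prog) (Ac .FA L [] (mk (m :: b) (em (List.replicate (b.length + 1) true) w) ds)) (Home (.C 0) L (Cln (opX m (look b w)) b)) := by
  have h1 : (em (List.replicate (b.length + 1) true) w).length = (m :: b).length := by simp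
  have h2 : ds.length = (m :: b).length := hds.len
  rw [look_pos (m := m) hw]
  cases hv : (m :: b)[num w]? with
  | none =>
    rw [List.getElem?_eq_none_iff] at hv
    exact missing L (by rw [em_fl]; exact fl_missing (by simpa using hv)) h1 h2
  | some v =>
    obtain ⟨hr, _⟩ := List.getElem?_eq_some_iff.1 hv
    obtain ⟨rest, hrest⟩ := fl_found (n := b.length + 1) (by simpa using hr) (num_lt w)
    exact found L (by rw [em_fl]; exact hrest) h1 h2 (hds.last hi) hv

theorem find_J (L : Str) (hds : DI (b.length + 1) i ds) (hi : 0 < i) :
    Reach (del prog) (Ac .FA L [] (mk (true :: b) (em (List.replicate (b.length + 1) true) w) ds)) (Home (.C 0) L (Cln (opJ true (look b w)) b)) := by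
  have h1 : (em (List.replicate (b.length + 1) true) w).length = (true :: b).length := by simp
  have h2 : ds.length = (true :: b).length := hds.len
  rw [look]
  cases hv : (true :: b)[num w]? with
  | none =>
    rw [List.getElem?_eq_none_iff] at hv
    exact missing L (by rw [em_fl]; exact fl_missing (by simpa using hv)) h1 h2
  | some v =>
    obtain ⟨hr, _⟩ := List.getElem?_eq_some_iff.1 hv
    obtain ⟨rest, hrest⟩ := fl_found (n := b.length + 1) (by simpa using hr) (num_lt w)
    have := found (prog := prog) L (by rw [em_fl]; exact hrest) h1 h2 (hds.last hi) hv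
    have e : opJ true (some v) = xor true v := by cases v <;> rfl
    rw [e]
    exact this

/-- The core of `opX`: from the bit `v` of cell 0. -/
theorem core_X (L : Str) (m : Bool) (hw : 0 < num w) (hds : DI (b.length + 1) i ds) (hi : 0 < i) :
    Reach (del prog) (Vc .FV L [] (mk (m :: b) (em (List.replicate (b.length + 1) true) w) ds)) (Home (.C 0) L (Cln (opX m (look b w)) b)) := by
  have hne : mk (m :: b) (em (List.replicate (b.length + 1) true) w) ds ≠ [] := mk_ne_nil (by simp) hds.len (by simp)
  refine Reach.trans ?_ (find_X L m hw hds hi)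
  obtain ⟨⟨v, a, d⟩, cs, hcs⟩ := List.exists_cons_of_ne_nil hne
  rw [hcs]
  cases v <;> exact (Reach1.right (by rfl)).reach

/-- The core of `opJ`. -/
theorem core_J (L : Str) (m : Bool) (hds : DI (b.length + 1) i ds) (hi : 0 < i) :
    Reach (del prog) (Vc .Jv L [] (mk (m :: b) (em (List.replicate (b.length + 1) true) w) ds)) (Home (.C 0) L (Cln (opJ m (look b w)) b)) := by
  have h1 : (em (List.replicate (b.length + 1) true) w).length = (m :: b).length := by simp
  have h2 : ds.length = (m :: b).length := hds.len
  have hne : mk (m :: b) (em (List.replicate (b.length + 1) true) w) ds ≠ [] := mk_ne_nil h1 h2 (by simp)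
  cases m with
  | true =>
    refine Reach.trans ?_ (find_J L hds hi)
    obtain ⟨a, as, has⟩ := List.exists_cons_of_ne_nil (List.ne_nil_of_length_eq_add_one h1)
    obtain ⟨d, ds', hds'⟩ := List.exists_cons_of_ne_nil (List.ne_nil_of_length_eq_add_one h2)
    rw [has, hds']
    exact (Reach1.right (w := true) (q' := St.FA) (by rfl)).reach
  | false =>
    have h3 := ra_home (prog := prog) L [] _ hne (ld_mk h1 h2 (hds.last hi))
    rw [List.nil_append, cln_mk h1 h2] at h3
    have e : opJ false (look b w) = false := by
      unfold opJ
      cases look b w <;> rfl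
    rw [e]
    refine Reach.trans ?_ h3
    obtain ⟨a, as, has⟩ := List.exists_cons_of_ne_nil (List.ne_nil_of_length_eq_add_one h1)
    obtain ⟨d, ds', hds'⟩ := List.exists_cons_of_ne_nil (List.ne_nil_of_length_eq_add_one h2)
    rw [has, hds']
    exact (Reach1.right (w := false) (q' := St.RA) (by rfl)).reach

/-- The core of `opL` (no violation). -/
theorem core_L (L : Str) (hds : DI (b.length + 1) i ds) (hi : 0 < i) :
    Reach (del prog) (Vc .Lv L [] (mk (false :: b) (em (List.replicate (b.length + 1) true) w) ds)) (Home (.C 0) L (Cln (opL (look b w)) b)) := by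
  have h1 : (em (List.replicate (b.length + 1) true) w).length = (false :: b).length := by simp
  have h2 : ds.length = (false :: b).length := hds.len
  have hne : mk (false :: b) (em (List.replicate (b.length + 1) true) w) ds ≠ [] := mk_ne_nil h1 h2 (by simp)
  have hld : ld (mk (false :: b) (em (List.replicate (b.length + 1) true) w) ds) = false := ld_mk h1 h2 (hds.last hi)
  obtain ⟨a, as, has⟩ := List.exists_cons_of_ne_nil (List.ne_nil_of_length_eq_add_one h1)
  obtain ⟨d, ds', hds'⟩ := List.exists_cons_of_ne_nil (List.ne_nil_of_length_eq_add_one h2)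
  have h0 : Reach (del prog) (Vc .Lv L [] (mk (false :: b) (em (List.replicate (b.length + 1) true) w) ds)) (Ac .Ka L [] (mk (false :: b) (em (List.replicate (b.length + 1) true) w) ds)) := by
    rw [has, hds']
    exact (Reach1.right (w := false) (q' := St.Ka) (by rfl)).reach
  refine h0.trans ?_
  rcases Nat.eq_zero_or_pos (num w) with hw | hw
  · -- the atom number 0
    obtain ⟨rest, hrest⟩ := fl_found (n := b.length + 1) (k := w.length) (r := 0) (by omega) (Nat.two_pow_pos _)
    have ha : a = true := by
      rw [em_fl, hw, hrest] at has
      simpa using (List.cons.inj has).1.symm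
    have e : opL (look b w) = true := by simp [look, hw, opL]
    rw [e]
    have h3 := rvf_run (prog := prog) L _ hne hld
    rw [flip_mk h1 h2] at h3
    refine Reach.trans ?_ h3
    subst ha
    rw [has, hds']
    exact (Reach1.left (w := true) (q' := St.RVf) (by rfl)).reach
  · have ha : a = false := by
      by_cases hlt : num w < b.length + 1
      · obtain ⟨rest, hrest⟩ := fl_found (n := b.length + 1) hlt (num_lt w)
        rw [em_fl, hrest] at has
        obtain ⟨r, hr⟩ : ∃ r, num w = r + 1 := ⟨num w - 1, by omega⟩
        rw [hr, List.replicate_succ] at has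
        exact (List.cons.inj has).1.symm
      · rw [em_fl, fl_missing (by omega), List.replicate_succ] at has
        exact (List.cons.inj has).1.symm
    have h3 := find_X (prog := prog) L false hw hds hi
    have e : opX false (look b w) = opL (look b w) := by
      unfold opX opL
      rcases look b w with _ | v
      · rfl
      · cases v <;> rfl
    rw [e] at h3
    subst ha
    rw [has, hds'] at h3 ⊢
    have h4 := Reach.of_step (δ := del prog) (c := Ac .FA L [] (mk (false :: b) (false :: as) (d :: ds'))) (c1 := ⟨.FD, cons true (cons false (cons false L)), cons d (rt (mk b as ds'))⟩) (by rfl) h3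
      (by simp [Ac, mk, Home, Cln, tt, List.replicate_succ, CL])
    refine Reach.trans ?_ h4
    exact (Reach1.right (w := true) (q' := St.FD) (by rfl)).reach

end

end Pool.Agent.Helper19.ZH
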