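import Mathlib

/-!
# Project ZH (MP_f907b0): the sieve

`sv p l`: go through the flags `l`; every other alive flag (`true`) is killed, the first one if `p` (phase `kill`), not the first one if not `p` (phase `keep`).
* `sv_fl`: the flags of the numbers `i < n` with `i % 2 ^ k = r` become the flags of those with `i % 2 ^ (k + 1) = r + s * 2 ^ k`.
* `count_sv_true`, `phase`: `sv true` halves the number of alive flags (rounded down), the phase at the end tells its parity.
-/

set_option autoImplicit false

namespace Pool.Agent.Helper19.ZH

/-- One pass. -/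
def sv : Bool → List Bool → List Bool
  | _, [] => []
  | p, false :: l => false :: sv p l
  | false, true :: l => true :: sv true l
  | true, true :: l => false :: sv false l

/-- The phase at the end. -/
def ph : Bool → List Bool → Bool
  | p, [] => p
  | p, false :: l => ph p l
  | p, true :: l => ph (!p) l

@[simp] theorem length_sv (p : Bool) (l : List Bool) : (sv p l).length = l.length := by
  induction l generalizing p with
  | nil => rfl
  | cons a l ih => cases a <;> cases p <;> simp [sv, ih]

theorem ph_eq (p : Bool) (l : List Bool) : ph p l = xor p (decide (l.count true % 2 = 1)) := by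
  induction l generalizing p with
  | nil => simp [ph]
  | cons a l ih =>
    cases a with
    | false => simp [ph, ih]
    | true =>
      rw [ph, ih, List.count_cons_self]
      rcases Nat.mod_two_eq_zero_or_one (l.count true) with h | h
      · have h2 : (l.count true + 1) % 2 = 1 := by omega
        rw [h, h2]
        cases p <;> rfl
      · have h2 : (l.count true + 1) % 2 = 0 := by omega
        rw [h, h2]
        cases p <;> rfl

/-- The digit read by a pass that starts with `kill` or with `keep`. -/
theorem ph_false (l : List Bool) : ph false l = decide (l.count true % 2 = 1) := by simp [ph_eq]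

theorem ph_true (l : List Bool) : ph true l = decide (l.count true % 2 = 0) := by
  rw [ph_eq]
  rcases Nat.mod_two_eq_zero_or_one (l.count true) with h | h <;> simp [h]

theorem count_sv (p : Bool) (l : List Bool) : (sv p l).count true = (l.count true + (if p then 0 else 1)) / 2 := by
  induction l generalizing p with
  | nil => cases p <;> simp [sv]
  | cons a l ih =>
    cases a with
    | false => cases p <;> simp [sv, ih]
    | true =>
      cases p with
      | false =>
        rw [sv, List.count_cons_self, List.count_cons_self, ih]
        simp only [if_true, Bool.false_eq_true, if_false]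
        try omega
      | true =>
        rw [sv, List.count_cons_self, List.count_cons_of_ne (by decide), ih]
        simp only [if_true, Bool.false_eq_true, if_false]
        try omega

theorem count_sv_true (l : List Bool) : (sv true l).count true = l.count true / 2 := by simp [count_sv]

theorem sv_getElem? (p : Bool) (l : List Bool) (i : ℕ) :
    (sv p l)[i]? = l[i]?.map (fun a => a && decide ((l.take i).count true % 2 = p.toNat)) := by
  induction l generalizing p i with
  | nil => simp [sv]
  | cons a l ih =>
    cases i with
    | zero => cases a <;> cases p <;> simp [sv]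
    | succ i =>
      have key : ∀ q : Bool, (sv q l)[i]? = l[i]?.map (fun a => a && decide ((l.take i).count true % 2 = q.toNat)) := fun q => ih q i
      cases a with
      | false =>
        have : sv p (false :: l) = false :: sv p l := by cases p <;> rfl
        rw [this]
        simp [key]
      | true =>
        have : sv p (true :: l) = (!p) :: sv (!p) l := by cases p <;> rfl
        rw [this]
        simp only [List.getElem?_cons_succ, List.take_succ_cons, List.count_cons_self, key]
        congr 1
        funext a
        congr 1
        rw [decide_eq_decide]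
        cases p with
        | false =>
          simp only [Bool.not_false, Bool.toNat_true, Bool.toNat_false]
          omega
        | true =>
          simp only [Bool.not_true, Bool.toNat_true, Bool.toNat_false]
          omega

/-- The flags of the numbers `i < n` with `i % 2 ^ k = r`. -/
def fl (n k r : ℕ) : List Bool := (List.range n).map (fun i => decide (i % 2 ^ k = r))

@[simp] theorem length_fl (n k r : ℕ) : (fl n k r).length = n := by simp [fl]

theorem fl_getElem? (n k r i : ℕ) : (fl n k r)[i]? = if i < n then some (decide (i % 2 ^ k = r)) else none := by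
  unfold fl
  rw [List.getElem?_map]
  by_cases h : i < n
  · simp [h]
  · simp [h]

theorem fl_zero (n : ℕ) : fl n 0 0 = List.replicate n true := by
  apply List.ext_getElem?
  intro i
  rw [fl_getElem?, List.getElem?_replicate]
  simp [Nat.mod_one]

theorem fl_succ (n k r : ℕ) : fl (n + 1) k r = fl n k r ++ [decide (n % 2 ^ k = r)] := by
  simp [fl, List.range_succ]

theorem take_fl (n k r i : ℕ) (h : i ≤ n) : (fl n k r).take i = fl i k r := by
  unfold fl
  rw [← List.map_take, List.take_range, Nat.min_eq_left h]

theorem count_fl (i k r : ℕ) (hr : r < 2 ^ k) : (fl i k r).count true = (i + 2 ^ k - 1 - r) / 2 ^ k := by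
  have hpos : 0 < 2 ^ k := Nat.two_pow_pos k
  induction i with
  | zero =>
    rw [Nat.div_eq_of_lt (by omega)]
    rfl
  | succ i ih =>
    rw [fl_succ, List.count_append, ih]
    obtain ⟨q, m, hm, rfl⟩ : ∃ q m, m < 2 ^ k ∧ i = 2 ^ k * q + m := ⟨i / 2 ^ k, i % 2 ^ k, Nat.mod_lt _ hpos, (Nat.div_add_mod _ _).symm⟩
    have h1 : (2 ^ k * q + m) % 2 ^ k = m := by rw [Nat.mul_add_mod, Nat.mod_eq_of_lt hm]
    rw [h1]
    by_cases h : m = r
    · subst h
      have e1 : 2 ^ k * q + m + 2 ^ k - 1 - m = 2 ^ k * q + (2 ^ k - 1) := by omega
      have e2 : 2 ^ k * q + m + 1 + 2 ^ k - 1 - m = 2 ^ k * (q + 1) := by rw [Nat.mul_add]; omega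
      rw [e1, e2, Nat.mul_add_div hpos, Nat.mul_div_cancel_left _ hpos, Nat.div_eq_of_lt (by omega)]
      simp
    · simp only [h, decide_false, List.count_singleton, Bool.false_eq_true, if_false, beq_iff_eq, Nat.add_zero]
      rcases Nat.lt_or_gt_of_ne h with hlt | hgt
      · have e1 : 2 ^ k * q + m + 2 ^ k - 1 - r = 2 ^ k * q + (m + 2 ^ k - 1 - r) := by omega
        have e2 : 2 ^ k * q + m + 1 + 2 ^ k - 1 - r = 2 ^ k * q + (m + 2 ^ k - r) := by omega
        rw [e1, e2, Nat.mul_add_div hpos, Nat.mul_add_div hpos, Nat.div_eq_of_lt (by omega), Nat.div_eq_of_lt (by omega)]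
      · have e1 : 2 ^ k * q + m + 2 ^ k - 1 - r = 2 ^ k * (q + 1) + (m - 1 - r) := by rw [Nat.mul_add]; omega
        have e2 : 2 ^ k * q + m + 1 + 2 ^ k - 1 - r = 2 ^ k * (q + 1) + (m - r) := by rw [Nat.mul_add]; omega
        rw [e1, e2, Nat.mul_add_div hpos, Nat.mul_add_div hpos, Nat.div_eq_of_lt (by omega), Nat.div_eq_of_lt (by omega)]

/-- A pass emits one bit of an address, least significant bit first. -/
theorem sv_fl (n k r : ℕ) (hr : r < 2 ^ k) (s : Bool) : sv s (fl n k r) = fl n (k + 1) (r + s.toNat * 2 ^ k) := by
  have hpos : 0 < 2 ^ k := Nat.two_pow_pos k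
  apply List.ext_getElem?
  intro i
  rw [sv_getElem?, fl_getElem?, fl_getElem?]
  by_cases h : i < n
  · rw [if_pos h, if_pos h, take_fl _ _ _ _ h.le, count_fl _ _ _ hr]
    simp only [Option.map_some, Option.some.injEq]
    obtain ⟨q, m, hm, rfl⟩ : ∃ q m, m < 2 ^ k ∧ i = 2 ^ k * q + m := ⟨i / 2 ^ k, i % 2 ^ k, Nat.mod_lt _ hpos, (Nat.div_add_mod _ _).symm⟩
    have h1 : (2 ^ k * q + m) % 2 ^ k = m := by rw [Nat.mul_add_mod, Nat.mod_eq_of_lt hm]
    have h2 : (2 ^ k * q + m) % 2 ^ (k + 1) = 2 ^ k * (q % 2) + m := by
      rw [pow_succ, Nat.mod_mul, h1, Nat.mul_add_div hpos, Nat.div_eq_of_lt hm, Nat.add_zero]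
      ring
    rw [h1, h2]
    by_cases hmr : m = r
    · subst hmr
      have e1 : 2 ^ k * q + m + 2 ^ k - 1 - m = 2 ^ k * q + (2 ^ k - 1) := by omega
      rw [e1, Nat.mul_add_div hpos, Nat.div_eq_of_lt (by omega), Nat.add_zero]
      simp only [decide_true, Bool.true_and, decide_eq_decide]
      constructor
      · intro h3
        rw [h3, Nat.mul_comm, Nat.add_comm]
      · intro h3
        have h4 : 2 ^ k * (q % 2) = 2 ^ k * s.toNat := by rw [Nat.mul_comm (2 ^ k) s.toNat]; omega
        exact Nat.eq_of_mul_eq_mul_left hpos h4
    · simp only [hmr, decide_false, Bool.false_and]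
      symm
      rw [decide_eq_false_iff_not]
      intro h3
      apply hmr
      have h4 : (2 ^ k * (q % 2) + m) % 2 ^ k = (r + s.toNat * 2 ^ k) % 2 ^ k := by rw [h3]
      rwa [Nat.mul_add_mod, Nat.mod_eq_of_lt hm, Nat.add_mul_mod_self_right, Nat.mod_eq_of_lt hr] at h4
  · rw [if_neg h, if_neg h]
    rfl

/-- The number with the binary digits `l`, least significant first. -/
def num : List Bool → ℕ
  | [] => 0
  | a :: l => a.toNat + 2 * num l

theorem num_append (l m : List Bool) : num (l ++ m) = num l + 2 ^ l.length * num m := by
  induction l with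
  | nil => simp [num]
  | cons a l ih => simp only [List.cons_append, num, ih, List.length_cons, pow_succ]; ring

theorem num_lt (l : List Bool) : num l < 2 ^ l.length := by
  induction l with
  | nil => simp [num]
  | cons a l ih =>
    simp only [num, List.length_cons, pow_succ]
    have := Bool.toNat_le a
    omega

/-- The emission of the word `w`. -/
theorem foldl_sv (n : ℕ) (w : List Bool) : w.foldl (fun l s => sv s l) (List.replicate n true) = fl n w.length (num w) := by
  induction w using List.reverseRecOn with
  | nil => exact (fl_zero n).symm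
  | append_singleton w s ih =>
    rw [List.foldl_append, ih, List.foldl_cons, List.foldl_nil, sv_fl _ _ _ (num_lt w), num_append]
    simp [num, Nat.mul_comm]

end Pool.Agent.Helper19.ZH
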