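import Pool.Agent.Helper19.ZH.Pass

/-!
# Project ZH (MP_f907b0): the passes of the machine
-/

set_option autoImplicit false

namespace Pool.Agent.Helper19.ZH

variable (prog : List Tok)

/-- Address sieve. -/
theorem pass_A : RightPass (del prog) St.AV St.AE (fun p c => xor p c.a) (fun p c => ⟨c.v, c.a && !p, c.d⟩) (fun _ => True) where
  one := by
    rintro p ⟨v, a, d⟩ _ L R
    refine ⟨3, ?_⟩
    cases p <;> cases v <;> cases a <;> cases d <;> rfl
  nxt := fun _ => rfl

/-- Neutral to the right. -/
theorem pass_N : RightPass (del prog) (fun _ : Unit => St.NV) (fun _ => St.NE) (fun i _ => i) (fun _ c => c) (fun _ => True) where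
  one := by
    rintro p ⟨v, a, d⟩ _ L R
    refine ⟨3, ?_⟩
    cases v <;> cases a <;> cases d <;> rfl
  nxt := fun _ => rfl

/-- Digit sieve. -/
theorem pass_D : LeftPass (del prog) St.DD St.DE (fun p c => xor p c.d) (fun p c => ⟨c.v, c.a, c.d && !p⟩) (fun _ => True) where
  one := by
    rintro p ⟨v, a, d⟩ _ L R
    refine ⟨3, ?_⟩
    cases p <;> cases v <;> cases a <;> cases d <;> rfl
  nxt := fun _ => rfl

/-- Neutral to the left. -/
theorem pass_NL : LeftPass (del prog) (fun _ : Unit => St.NLd) (fun _ => St.NLe) (fun i _ => i) (fun _ c => c) (fun _ => True) where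
  one := by
    rintro p ⟨v, a, d⟩ _ L R
    refine ⟨3, ?_⟩
    cases v <;> cases a <;> cases d <;> rfl
  nxt := fun _ => rfl

/-- Find: over dead cells. -/
theorem pass_F : RightPass (del prog) (fun _ : Unit => St.FV) (fun _ => St.FE) (fun i _ => i) (fun _ c => ⟨c.v, true, true⟩) (fun c => c.a = false) where
  one := by
    rintro p ⟨v, a, d⟩ h L R
    change a = false at h
    subst h
    refine ⟨3, ?_⟩
    cases v <;> cases d <;> rfl
  nxt := fun _ => rfl

/-- Back to cell 0, over clean cells. -/
theorem pass_AL : LeftPass (del prog) (fun _ : Unit => St.ALd) (fun _ => St.ALe) (fun i _ => i) (fun _ c => c) (fun c => c.a = true ∧ c.d = true) where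
  one := by
    rintro p ⟨v, a, d⟩ ⟨h, h'⟩ L R
    change a = true at h
    change d = true at h'
    subst h h'
    refine ⟨3, ?_⟩
    cases v <;> rfl
  nxt := fun _ => rfl

/-- Reset. -/
theorem pass_R : RightPass (del prog) (fun _ : Bool => St.RV) St.RE (fun _ c => c.d) (fun _ c => ⟨c.v, true, true⟩) (fun _ => True) where
  one := by
    rintro p ⟨v, a, d⟩ h L R
    refine ⟨3, ?_⟩
    cases v <;> cases a <;> cases d <;> rfl
  nxt := fun p => by cases p <;> rfl

/-- To cell 0, over clean cells, in order to clear `m`. -/
theorem pass_CL : LeftPass (del prog) (fun _ : Unit => St.CLd) (fun _ => St.CLe) (fun i _ => i) (fun _ c => c) (fun c => c.a = true ∧ c.d = true) where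
  one := by
    rintro p ⟨v, a, d⟩ ⟨h, h'⟩ L R
    change a = true at h
    change d = true at h'
    subst h h'
    refine ⟨3, ?_⟩
    cases v <;> rfl
  nxt := fun _ => rfl

/-- Back to the first digit. -/
theorem pass_r : RightPass (del prog) (fun _ : Bool => St.rV) St.rE (fun _ c => c.d) (fun _ c => ⟨c.v, c.a, true⟩) (fun _ => True) where
  one := by
    rintro p ⟨v, a, d⟩ h L R
    refine ⟨3, ?_⟩
    cases v <;> cases a <;> cases d <;> rfl
  nxt := fun p => by cases p <;> rfl

/-- The carry, over clean cells with `v = 1`. -/
theorem pass_I : LeftPass (del prog) (fun _ : Unit => St.Id) (fun _ => St.Ie) (fun i _ => i) (fun _ _ => ⟨false, true, true⟩) (fun c => c = ⟨true, true, true⟩) where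
  one := by
    rintro p c rfl L R
    exact ⟨3, rfl⟩
  nxt := fun _ => rfl

/-! ## arrays as three lists -/

/-- The array with the bits `vs`, the address flags `as` and the digit flags `ds`. -/
def mk : List Bool → List Bool → List Bool → List Cell
  | v :: vs, a :: as, d :: ds => ⟨v, a, d⟩ :: mk vs as ds
  | _, _, _ => []

theorem length_mk {vs as ds : List Bool} (h1 : as.length = vs.length) (h2 : ds.length = vs.length) : (mk vs as ds).length = vs.length := by
  induction vs generalizing as ds with
  | nil => rfl
  | cons v vs ih =>
    cases as with
    | nil => simp at h1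
    | cons a as => cases ds with
      | nil => simp at h2
      | cons d ds => simp [mk, ih (by simpa using h1) (by simpa using h2)]

theorem mk_ne_nil {vs as ds : List Bool} (h1 : as.length = vs.length) (h2 : ds.length = vs.length) (h : vs ≠ []) : mk vs as ds ≠ [] := by
  intro h3
  have := length_mk h1 h2
  rw [h3] at this
  exact h (List.length_eq_zero_iff.1 (by simpa using this.symm))

theorem mk_append {v1 a1 d1 v2 a2 d2 : List Bool} (h1 : a1.length = v1.length) (h2 : d1.length = v1.length) :
    mk (v1 ++ v2) (a1 ++ a2) (d1 ++ d2) = mk v1 a1 d1 ++ mk v2 a2 d2 := by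
  induction v1 generalizing a1 d1 with
  | nil =>
    rw [List.length_nil, List.length_eq_zero_iff] at h1 h2
    subst h1 h2
    rfl
  | cons v v1 ih =>
    cases a1 with
    | nil => simp at h1
    | cons a a1 => cases d1 with
      | nil => simp at h2
      | cons d d1 => simp [mk, ih (by simpa using h1) (by simpa using h2)]

theorem mk_reverse {vs as ds : List Bool} (h1 : as.length = vs.length) (h2 : ds.length = vs.length) :
    (mk vs as ds).reverse = mk vs.reverse as.reverse ds.reverse := by
  induction vs generalizing as ds with
  | nil =>
    rw [List.length_nil, List.length_eq_zero_iff] at h1 h2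
    subst h1 h2
    rfl
  | cons v vs ih =>
    cases as with
    | nil => simp at h1
    | cons a as => cases ds with
      | nil => simp at h2
      | cons d ds =>
        have h1' : as.length = vs.length := by simpa using h1
        have h2' : ds.length = vs.length := by simpa using h2
        rw [mk, List.reverse_cons, ih h1' h2', List.reverse_cons, List.reverse_cons, List.reverse_cons,
          mk_append (by simpa using h1') (by simpa using h2')]
        rfl

/-- The address sieve on three lists. -/
theorem scan_A (p : Bool) {vs as ds : List Bool} (h1 : as.length = vs.length) (h2 : ds.length = vs.length) :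
    scan (fun (p : Bool) (c : Cell) => xor p c.a) (fun p c => (⟨c.v, c.a && !p, c.d⟩ : Cell)) p (mk vs as ds) = mk vs (sv p as) ds := by
  induction vs generalizing as ds p with
  | nil =>
    rw [List.length_nil, List.length_eq_zero_iff] at h1 h2
    subst h1 h2
    rfl
  | cons v vs ih =>
    cases as with
    | nil => simp at h1
    | cons a as => cases ds with
      | nil => simp at h2
      | cons d ds =>
        have h1' : as.length = vs.length := by simpa using h1
        have h2' : ds.length = vs.length := by simpa using h2
        cases p <;> cases a <;> simp [mk, scan, sv, ih _ h1' h2']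

/-- The digit sieve on three lists. -/
theorem scan_D (p : Bool) {vs as ds : List Bool} (h1 : as.length = vs.length) (h2 : ds.length = vs.length) :
    scan (fun (p : Bool) (c : Cell) => xor p c.d) (fun p c => (⟨c.v, c.a, c.d && !p⟩ : Cell)) p (mk vs as ds) = mk vs as (sv p ds) := by
  induction vs generalizing as ds p with
  | nil =>
    rw [List.length_nil, List.length_eq_zero_iff] at h1 h2
    subst h1 h2
    rfl
  | cons v vs ih =>
    cases as with
    | nil => simp at h1
    | cons a as => cases ds with
      | nil => simp at h2
      | cons d ds =>
        have h1' : as.length = vs.length := by simpa using h1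
        have h2' : ds.length = vs.length := by simpa using h2
        cases p <;> cases d <;> simp [mk, scan, sv, ih _ h1' h2']

theorem fin_D (p : Bool) {vs as ds : List Bool} (h1 : as.length = vs.length) (h2 : ds.length = vs.length) :
    fin (fun (p : Bool) (c : Cell) => xor p c.d) p (mk vs as ds) = ph p ds := by
  induction vs generalizing as ds p with
  | nil =>
    rw [List.length_nil, List.length_eq_zero_iff] at h1 h2
    subst h1 h2
    rfl
  | cons v vs ih =>
    cases as with
    | nil => simp at h1
    | cons a as => cases ds with
      | nil => simp at h2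
      | cons d ds =>
        have h1' : as.length = vs.length := by simpa using h1
        have h2' : ds.length = vs.length := by simpa using h2
        cases p <;> cases d <;> simp [mk, fin, ph, ih _ h1' h2']

/-- All flags. -/
def tt (vs : List Bool) : List Bool := List.replicate vs.length true

@[simp] theorem length_tt (vs : List Bool) : (tt vs).length = vs.length := by simp [tt]

/-- Reset on three lists. -/
theorem map_reset {vs as ds : List Bool} (h1 : as.length = vs.length) (h2 : ds.length = vs.length) :
    (mk vs as ds).map (fun c => (⟨c.v, true, true⟩ : Cell)) = mk vs (tt vs) (tt vs) := by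
  induction vs generalizing as ds with
  | nil =>
    rw [List.length_nil, List.length_eq_zero_iff] at h1 h2
    subst h1 h2
    rfl
  | cons v vs ih =>
    cases as with
    | nil => simp at h1
    | cons a as => cases ds with
      | nil => simp at h2
      | cons d ds =>
        have h1' : as.length = vs.length := by simpa using h1
        have h2' : ds.length = vs.length := by simpa using h2
        simp [mk, ih h1' h2', tt, List.replicate_succ]

theorem map_r {vs as ds : List Bool} (h1 : as.length = vs.length) (h2 : ds.length = vs.length) :
    (mk vs as ds).map (fun c => (⟨c.v, c.a, true⟩ : Cell)) = mk vs as (tt vs) := by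
  induction vs generalizing as ds with
  | nil =>
    rw [List.length_nil, List.length_eq_zero_iff] at h1 h2
    subst h1 h2
    rfl
  | cons v vs ih =>
    cases as with
    | nil => simp at h1
    | cons a as => cases ds with
      | nil => simp at h2
      | cons d ds =>
        have h1' : as.length = vs.length := by simpa using h1
        have h2' : ds.length = vs.length := by simpa using h2
        simp [mk, ih h1' h2', tt, List.replicate_succ]

theorem mem_mk_clean {vs : List Bool} {c : Cell} (h : c ∈ mk vs (tt vs) (tt vs)) : c.a = true ∧ c.d = true := by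
  induction vs with
  | nil => simp [mk] at h
  | cons v vs ih =>
    simp only [tt, List.length_cons, List.replicate_succ, mk, List.mem_cons] at h
    rcases h with rfl | h
    · exact ⟨rfl, rfl⟩
    · exact ih h

/-! ## home -/

/-- From the last of the cells `pre` to position `-2`. -/
theorem nl_home (L : Str) (pre post : List Cell) (h : pre ≠ []) : Reach (del prog) (Dc .NLd L pre post) (Home (.C 0) L (pre ++ post)) := by
  have h1 := (pass_NL prog).run pre h () L [] post (fun _ _ => trivial)
  rw [scan_id, List.reverse_reverse, List.nil_append] at h1
  refine h1.trans ?_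
  obtain ⟨c, cs, rfl⟩ := List.exists_cons_of_ne_nil h
  exact (Reach1.to_left (by rfl)).reach

/-- An emission: from the bit `v` of cell 0 to position `-2`. -/
theorem emit (s : Bool) (L : Str) {vs as ds : List Bool} (h1 : as.length = vs.length) (h2 : ds.length = vs.length) (h : vs ≠ []) :
    Reach (del prog) (Vc (.AV s) L [] (mk vs as ds)) (Home (.C 0) L (mk vs (sv s as) ds)) := by
  have hne := mk_ne_nil h1 h2 h
  have h3 := (pass_A prog).run (mk vs as ds) hne s L [] (fun _ _ => trivial)
  rw [scan_A s h1 h2, List.nil_append] at h3
  refine h3.trans ?_
  refine (turn (q' := .NLd) (by rfl)).reach.trans ?_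
  have := nl_home prog L (mk vs (sv s as) ds) [] (mk_ne_nil (by simpa using h1) h2 h)
  rwa [List.append_nil] at this

/-- A digit is read: from the bit `v` of cell 0 to position `-2`. -/
theorem digit (L : Str) {vs as ds : List Bool} (h1 : as.length = vs.length) (h2 : ds.length = vs.length) (h : vs ≠ []) :
    Reach (del prog) (Vc .NV L [] (mk vs as ds)) (Home (.P (!ph true ds.reverse)) L (mk vs as (sv true ds.reverse).reverse)) := by
  have hne := mk_ne_nil h1 h2 h
  have h3 := (pass_N prog).run (mk vs as ds) hne () L [] (fun _ _ => trivial)
  rw [scan_id, List.nil_append] at h3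
  refine h3.trans ?_
  refine (turn (q' := .DD true) (by rfl)).reach.trans ?_
  have h4 := (pass_D prog).run (mk vs as ds) hne true L [] [] (fun _ _ => trivial)
  rw [mk_reverse h1 h2, scan_D true (by simpa using h1) (by simpa using h2), fin_D true (by simpa using h1) (by simpa using h2),
    mk_reverse (by simpa using h1) (by simpa using h2), List.reverse_reverse, List.reverse_reverse, List.nil_append, List.append_nil] at h4
  refine h4.trans ?_
  have hne2 : mk vs as (sv true ds.reverse).reverse ≠ [] := mk_ne_nil h1 (by simpa using h2) h
  obtain ⟨c, cs, hcs⟩ := List.exists_cons_of_ne_nil hne2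
  rw [hcs]
  exact (Reach1.to_left (by rfl)).reach

end Pool.Agent.Helper19.ZH
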