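import Pool.Agent.Helper19.ZH.TM

/-!
# Project ZH (MP_f907b0): sweeps over arrays of cells

`CL q L R`: the machine is in the state `q` on the first cell of `L` (that is, the cell to the left of `R`); it is the configuration for motion to the left.

A sweep goes over the cells `cs : List α`, each written as a word `enc a`; in the (abstract) state `i : ι` the cell `a` is changed to `f i a` and the abstract state becomes `nx i a`.
`sweep_right`, `sweep_left`: from the behaviour on one cell to the behaviour on the whole array.
-/

set_option autoImplicit false

namespace Pool.Agent.Helper19.ZH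

variable {σ : Type} {δ : σ → Bool → Option (Bool × Bool × σ)}

/-- The machine is in the state `q` on the first cell of `L`. -/
def CL (q : σ) (L R : Str) : C σ := ⟨q, tl L, cons (hd L) R⟩

@[simp] theorem CL_cons (q : σ) (a : Bool) (L R : Str) : CL q (cons a L) R = ⟨q, L, cons a R⟩ := rfl

/-- A step to the right, for configurations of the second kind. -/
theorem Reach1.CL_right {q q' : σ} {b w : Bool} {L R : Str} (h : δ q b = some (w, true, q')) :
    Reach1 δ (CL q (cons b L) R) ⟨q', cons w L, R⟩ := reach1_of_stp (by simp [stp, h])

/-- A step to the left: the result is a configuration of the second kind. -/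
theorem Reach1.to_left {q q' : σ} {b w : Bool} {L R : Str} (h : δ q b = some (w, false, q')) :
    Reach1 δ ⟨q, L, cons b R⟩ (CL q' L (cons w R)) := reach1_of_stp (by simp [stp, h, CL])

theorem Reach1.CL_left {q q' : σ} {b w : Bool} {L R : Str} (h : δ q b = some (w, false, q')) :
    Reach1 δ (CL q (cons b L) R) (CL q' L (cons w R)) := reach1_of_stp (by simp [stp, h, CL])

theorem C.eta (c : C σ) : c = ⟨c.q, c.L, cons (hd c.R) (tl c.R)⟩ := by rw [cons_hd_tl]

/-- The head on the right part or on the left part. -/
theorem eq_CL (q : σ) (a : Bool) (L R : Str) : (⟨q, L, cons a R⟩ : C σ) = CL q (cons a L) R := rfl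

section

variable {α ι : Type}

/-- The cells after a sweep. -/
def scan (nx : ι → α → ι) (f : ι → α → α) : ι → List α → List α
  | _, [] => []
  | i, a :: cs => f i a :: scan nx f (nx i a) cs

/-- The abstract state after a sweep. -/
def fin (nx : ι → α → ι) : ι → List α → ι
  | i, [] => i
  | i, a :: cs => fin nx (nx i a) cs

/-- The array as a word. -/
def word (enc : α → List Bool) (cs : List α) : List Bool := cs.flatMap enc

@[simp] theorem word_nil (enc : α → List Bool) : word enc [] = [] := rfl
@[simp] theorem word_cons (enc : α → List Bool) (a : α) (cs : List α) : word enc (a :: cs) = enc a ++ word enc cs := rfl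
@[simp] theorem word_append (enc : α → List Bool) (cs ds : List α) : word enc (cs ++ ds) = word enc cs ++ word enc ds := by
  simp [word]

@[simp] theorem length_scan (nx : ι → α → ι) (f : ι → α → α) (i : ι) (cs : List α) : (scan nx f i cs).length = cs.length := by
  induction cs generalizing i with
  | nil => rfl
  | cons a cs ih => simp [scan, ih]

theorem scan_append (nx : ι → α → ι) (f : ι → α → α) (i : ι) (cs ds : List α) :
    scan nx f i (cs ++ ds) = scan nx f i cs ++ scan nx f (fin nx i cs) ds := by
  induction cs generalizing i with
  | nil => rfl
  | cons a cs ih => simp [scan, fin, ih]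

theorem fin_append (nx : ι → α → ι) (i : ι) (cs ds : List α) : fin nx i (cs ++ ds) = fin nx (fin nx i cs) ds := by
  induction cs generalizing i with
  | nil => rfl
  | cons a cs ih => simp [fin, ih]

/-- A sweep to the right. -/
theorem sweep_right (enc : α → List Bool) (st : ι → σ) (nx : ι → α → ι) (f : ι → α → α)
    (h : ∀ i a L R, Reach δ ⟨st i, L, app (enc a) R⟩ ⟨st (nx i a), rapp (enc (f i a)) L, R⟩)
    (cs : List α) (i : ι) (L R : Str) :
    Reach δ ⟨st i, L, app (word enc cs) R⟩ ⟨st (fin nx i cs), rapp (word enc (scan nx f i cs)) L, R⟩ := by
  induction cs generalizing i L with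
  | nil => exact Reach.refl _
  | cons a cs ih =>
    simp only [word_cons, app_append, scan, fin, rapp_append]
    exact (h i a L _).trans (ih _ _)

/-- A sweep to the left; the cells are passed in the order of the list `cs`, which is the array read from right to left: cell `a` is written `enc a` (read from left to right). -/
theorem sweep_left (enc : α → List Bool) (st : ι → σ) (nx : ι → α → ι) (f : ι → α → α)
    (h : ∀ i a L R, Reach δ (CL (st i) (rapp (enc a) L) R) (CL (st (nx i a)) L (app (enc (f i a)) R)))
    (cs : List α) (i : ι) (L R : Str) :
    Reach δ (CL (st i) (rapp (word enc cs.reverse) L) R) (CL (st (fin nx i cs)) L (app (word enc (scan nx f i cs).reverse) R)) := by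
  induction cs generalizing i R with
  | nil => exact Reach.refl _
  | cons a cs ih =>
    have h1 : rapp (word enc (a :: cs).reverse) L = rapp (enc a) (rapp (word enc cs.reverse) L) := by
      rw [List.reverse_cons, word_append, rapp_append]
      simp
    have h2 : app (word enc (scan nx f i (a :: cs)).reverse) R = app (word enc (scan nx f (nx i a) cs).reverse) (app (enc (f i a)) R) := by
      simp [scan]
    rw [h1, h2]
    exact (h i a _ R).trans (ih _ _)

/-- Cells that are only passed. -/
theorem scan_id (nx : ι → α → ι) (i : ι) (cs : List α) : scan nx (fun _ a => a) i cs = cs := by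
  induction cs generalizing i with
  | nil => rfl
  | cons a cs ih => simp [scan, ih]

theorem scan_map (nx : ι → α → ι) (g : α → α) (i : ι) (cs : List α) : scan nx (fun _ a => g a) i cs = cs.map g := by
  induction cs generalizing i with
  | nil => rfl
  | cons a cs ih => simp [scan, ih]

end

/-- Walk to the right over `k` copies of `b`. -/
theorem walk_right {q : σ} {b : Bool} (h : δ q b = some (b, true, q)) (k : ℕ) (L R : Str) :
    Reach δ ⟨q, L, rep k b R⟩ ⟨q, rep k b L, R⟩ := by
  induction k generalizing L with
  | zero => exact Reach.refl _
  | succ k ih =>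
    rw [rep_succ, rep_succ' k b L]
    exact (Reach1.right h).reach.trans (ih _)

/-- Walk to the left over `k` copies of `b`. -/
theorem walk_left {q : σ} {b : Bool} (h : δ q b = some (b, false, q)) (k : ℕ) (L R : Str) :
    Reach δ (CL q (rep k b L) R) (CL q L (rep k b R)) := by
  induction k generalizing R with
  | zero => exact Reach.refl _
  | succ k ih =>
    rw [rep_succ, rep_succ' k b R]
    exact (Reach1.CL_left h).reach.trans (ih _)

/-- Erase (or write) on the way to the left. -/
theorem walk_left' {q : σ} {b w : Bool} (h : δ q b = some (w, false, q)) (k : ℕ) (L R : Str) :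
    Reach δ (CL q (rep k b L) R) (CL q L (rep k w R)) := by
  induction k generalizing R with
  | zero => exact Reach.refl _
  | succ k ih =>
    rw [rep_succ, rep_succ' k w R]
    exact (Reach1.CL_left h).reach.trans (ih _)

theorem walk_right' {q : σ} {b w : Bool} (h : δ q b = some (w, true, q)) (k : ℕ) (L R : Str) :
    Reach δ ⟨q, L, rep k b R⟩ ⟨q, rep k w L, R⟩ := by
  induction k generalizing L with
  | zero => exact Reach.refl _
  | succ k ih =>
    rw [rep_succ, rep_succ' k w L]
    exact (Reach1.right h).reach.trans (ih _)

theorem rapp_rep (k : ℕ) (b : Bool) (s : Str) : rapp (List.replicate k b) s = rep k b s := by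
  rw [rapp_eq, List.reverse_replicate]
  rfl

theorem app_rep (k : ℕ) (b : Bool) (s : Str) : app (List.replicate k b) s = rep k b s := rfl

end Pool.Agent.Helper19.ZH
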