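import Mathlib

/-!
# Project ZH (MP_f907b0): Turing machines with two symbols, halting, and list-like configurations for proofs

* `TM n`: machines with `n` states; `TM.Halts`: the machine started on the blank tape halts (exactly as in the problem file).
* `Str`: half tapes (streams of bits); `C`: a configuration `⟨q, L, R⟩`: the head is on the first cell of `R`, `L` is the tape to the left, read from the head.
* `Reach δ c d`: `c` leads to `d` in at least 0 steps; `Reach1`: in at least 1 step; `Stops δ c`: started in `c` the machine halts.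
* `TM.halts_iff`: a machine halts iff the configuration `⟨start, blank, blank⟩` stops.
* `stops_iff`: an abstract deterministic loop simulated by the machine.
-/

set_option autoImplicit false

namespace Pool.Agent.Helper19.ZH

/-- A Turing machine with `n` states and tape alphabet `{0,1}` (`false`, `true`): in state `q` on the symbol `b` it has no transition (`none`, it halts), or it writes a symbol,
moves (`true`: one cell right, `false`: one cell left) and enters a state. -/
structure TM (n : ℕ) where
  start : Fin n
  tr : Fin n → Bool → Option (Bool × Bool × Fin n)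

/-- Configurations: state, head position, tape. -/
structure Cfg (n : ℕ) where
  q : Fin n
  pos : ℤ
  tape : ℤ → Bool

/-- One step; `none`: there is no transition, the machine halts. -/
def TM.step {n : ℕ} (M : TM n) (c : Cfg n) : Option (Cfg n) :=
  (M.tr c.q (c.tape c.pos)).map fun t => ⟨t.2.2, if t.2.1 = true then c.pos + 1 else c.pos - 1, Function.update c.tape c.pos t.1⟩

/-- The machine, started in its initial state on cell 0 of the blank tape, halts: for some `k` there is no configuration after `k` steps. -/
def TM.Halts {n : ℕ} (M : TM n) : Prop :=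
  ∃ k : ℕ, (fun x : Option (Cfg n) => x.bind M.step)^[k] (some ⟨M.start, 0, fun _ => false⟩) = none

/-- `c` leads to `d` in `k` steps. -/
def TM.run {n : ℕ} (M : TM n) : ℕ → Cfg n → Option (Cfg n)
  | 0, c => some c
  | k + 1, c => (M.step c).bind (M.run k)

theorem iterate_none {n : ℕ} (M : TM n) (k : ℕ) : (fun x : Option (Cfg n) => x.bind M.step)^[k] none = none := by
  induction k with
  | zero => rfl
  | succ k ih => rw [Function.iterate_succ_apply]; exact ih

theorem TM.iterate_eq_run {n : ℕ} (M : TM n) (k : ℕ) (c : Cfg n) : (fun x : Option (Cfg n) => x.bind M.step)^[k] (some c) = M.run k c := by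
  induction k generalizing c with
  | zero => rfl
  | succ k ih =>
    rw [Function.iterate_succ_apply, TM.run]
    show (fun x : Option (Cfg n) => x.bind M.step)^[k] (M.step c) = _
    cases h : M.step c with
    | none => rw [iterate_none]; rfl
    | some d => rw [ih]; rfl

theorem TM.run_succ_none {n : ℕ} (M : TM n) {k : ℕ} {c : Cfg n} (h : M.run k c = none) : ∃ j d, M.run j c = some d ∧ M.step d = none := by
  induction k generalizing c with
  | zero => cases h
  | succ k ih =>
    rw [TM.run] at h
    cases hs : M.step c with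
    | none => exact ⟨0, c, rfl, hs⟩
    | some e =>
      rw [hs, Option.bind_some] at h
      obtain ⟨j, d, h1, h2⟩ := ih h
      exact ⟨j + 1, d, by rw [TM.run, hs, Option.bind_some, h1], h2⟩

theorem TM.run_add_one {n : ℕ} (M : TM n) {k : ℕ} {c d : Cfg n} (h : M.run k c = some d) (h' : M.step d = none) : M.run (k + 1) c = none := by
  induction k generalizing c with
  | zero =>
    cases h
    rw [TM.run, h']
    rfl
  | succ k ih =>
    rw [TM.run] at h ⊢
    cases hs : M.step c with
    | none => rfl
    | some e =>
      rw [hs, Option.bind_some] at h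
      rw [Option.bind_some]
      exact ih h

theorem TM.halts_iff_run {n : ℕ} (M : TM n) : M.Halts ↔ ∃ (k : ℕ) (c : Cfg n), M.run k ⟨M.start, 0, fun _ => false⟩ = some c ∧ M.step c = none := by
  constructor
  · rintro ⟨k, hk⟩
    rw [M.iterate_eq_run] at hk
    exact M.run_succ_none hk
  · rintro ⟨k, c, hk, hc⟩
    exact ⟨k + 1, by rw [M.iterate_eq_run]; exact M.run_add_one hk hc⟩

/-! ## half tapes -/

/-- Half tapes. -/
abbrev Str := ℕ → Bool

/-- Put one bit in front. -/
def cons (b : Bool) (s : Str) : Str
  | 0 => b
  | i + 1 => s i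

/-- The blank half tape. -/
def blank : Str := fun _ => false

def hd (s : Str) : Bool := s 0

def tl (s : Str) : Str := fun i => s (i + 1)

@[simp] theorem hd_cons (b : Bool) (s : Str) : hd (cons b s) = b := rfl
@[simp] theorem tl_cons (b : Bool) (s : Str) : tl (cons b s) = s := rfl
@[simp] theorem hd_blank : hd blank = false := rfl
@[simp] theorem tl_blank : tl blank = blank := rfl
@[simp] theorem cons_zero (b : Bool) (s : Str) : (cons b s) 0 = b := rfl
@[simp] theorem cons_succ (b : Bool) (s : Str) (i : ℕ) : (cons b s) (i + 1) = s i := rfl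

theorem cons_hd_tl (s : Str) : cons (hd s) (tl s) = s := by
  funext i; cases i <;> rfl

@[simp] theorem cons_blank : cons false blank = blank := by
  funext i; cases i <;> rfl

/-- `l` in front of `s`. -/
def app : List Bool → Str → Str
  | [], s => s
  | a :: l, s => cons a (app l s)

/-- `l` in front of `s`, the last element of `l` is the first cell. -/
def rapp : List Bool → Str → Str
  | [], s => s
  | a :: l, s => rapp l (cons a s)

@[simp] theorem app_nil (s : Str) : app [] s = s := rfl
@[simp] theorem app_cons (a : Bool) (l : List Bool) (s : Str) : app (a :: l) s = cons a (app l s) := rfl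
@[simp] theorem rapp_nil (s : Str) : rapp [] s = s := rfl
@[simp] theorem rapp_cons (a : Bool) (l : List Bool) (s : Str) : rapp (a :: l) s = rapp l (cons a s) := rfl

@[simp] theorem app_append (l m : List Bool) (s : Str) : app (l ++ m) s = app l (app m s) := by
  induction l with
  | nil => rfl
  | cons a l ih => simp [ih]

@[simp] theorem rapp_append (l m : List Bool) (s : Str) : rapp (l ++ m) s = rapp m (rapp l s) := by
  induction l generalizing s with
  | nil => rfl
  | cons a l ih => simp [ih]

theorem rapp_eq (l : List Bool) (s : Str) : rapp l s = app l.reverse s := by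
  induction l generalizing s with
  | nil => rfl
  | cons a l ih => simp [ih]

theorem app_reverse (l : List Bool) (s : Str) : app l.reverse s = rapp l s := (rapp_eq l s).symm

theorem rapp_reverse (l : List Bool) (s : Str) : rapp l.reverse s = app l s := by simp [rapp_eq]

/-- `k` copies of `b` in front of `s`. -/
def rep (k : ℕ) (b : Bool) (s : Str) : Str := app (List.replicate k b) s

@[simp] theorem rep_zero (b : Bool) (s : Str) : rep 0 b s = s := rfl
theorem rep_succ (k : ℕ) (b : Bool) (s : Str) : rep (k + 1) b s = cons b (rep k b s) := rfl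
theorem rep_succ' (k : ℕ) (b : Bool) (s : Str) : rep (k + 1) b s = rep k b (cons b s) := by
  induction k with
  | zero => rfl
  | succ k ih => rw [rep_succ, ih, rep_succ]

theorem rep_add (k m : ℕ) (b : Bool) (s : Str) : rep (k + m) b s = rep k b (rep m b s) := by
  simp only [rep]
  rw [List.replicate_add, app_append]

@[simp] theorem rep_blank (k : ℕ) : rep k false blank = blank := by
  induction k with
  | zero => rfl
  | succ k ih => rw [rep_succ, ih, cons_blank]

/-! ## configurations -/

/-- `⟨q, L, R⟩`: state `q`, the head is on the first cell of `R`, `L` is the part of the tape to the left of the head (its first cell is next to the head). -/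
@[ext] structure C (σ : Type) where
  q : σ
  L : Str
  R : Str

variable {σ : Type} (δ : σ → Bool → Option (Bool × Bool × σ))

/-- One step. -/
def stp (c : C σ) : Option (C σ) :=
  match δ c.q (hd c.R) with
  | none => none
  | some (w, true, q') => some ⟨q', cons w c.L, tl c.R⟩
  | some (w, false, q') => some ⟨q', tl c.L, cons (hd c.L) (cons w (tl c.R))⟩

/-- `k` steps. -/
def stps : ℕ → C σ → Option (C σ)
  | 0, c => some c
  | k + 1, c => (stp δ c).bind (stps k)

/-- At least 0 steps. -/
def Reach (c d : C σ) : Prop := ∃ k, stps δ k c = some d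

/-- At least 1 step. -/
def Reach1 (c d : C σ) : Prop := ∃ k, stps δ (k + 1) c = some d

/-- The machine, started in the configuration `c`, halts. -/
def Stops (c : C σ) : Prop := ∃ k d, stps δ k c = some d ∧ stp δ d = none

variable {δ}

theorem stps_add (k m : ℕ) (c : C σ) : stps δ (k + m) c = (stps δ k c).bind (stps δ m) := by
  induction k generalizing c with
  | zero => simp [stps]
  | succ k ih =>
    rw [Nat.add_right_comm]
    simp only [stps]
    cases h : stp δ c with
    | none => simp
    | some d => simp [ih]

theorem Reach.refl (c : C σ) : Reach δ c c := ⟨0, rfl⟩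

theorem Reach.trans {c d e : C σ} (h : Reach δ c d) (h' : Reach δ d e) : Reach δ c e := by
  obtain ⟨k, hk⟩ := h
  obtain ⟨m, hm⟩ := h'
  exact ⟨k + m, by rw [stps_add, hk]; exact hm⟩

theorem Reach1.reach {c d : C σ} (h : Reach1 δ c d) : Reach δ c d := by
  obtain ⟨k, hk⟩ := h
  exact ⟨k + 1, hk⟩

theorem Reach1.trans_reach {c d e : C σ} (h : Reach1 δ c d) (h' : Reach δ d e) : Reach1 δ c e := by
  obtain ⟨k, hk⟩ := h
  obtain ⟨m, hm⟩ := h'
  refine ⟨k + m, ?_⟩
  rw [Nat.add_right_comm, stps_add, hk]
  exact hm

theorem Reach.trans_reach1 {c d e : C σ} (h : Reach δ c d) (h' : Reach1 δ d e) : Reach1 δ c e := by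
  obtain ⟨k, hk⟩ := h
  obtain ⟨m, hm⟩ := h'
  refine ⟨k + m, ?_⟩
  rw [Nat.add_assoc, stps_add, hk]
  exact hm

theorem Reach1.trans {c d e : C σ} (h : Reach1 δ c d) (h' : Reach1 δ d e) : Reach1 δ c e :=
  h.trans_reach h'.reach

theorem reach1_of_stp {c d : C σ} (h : stp δ c = some d) : Reach1 δ c d := ⟨0, by simp [stps, h]⟩

theorem reach_of_stps (k : ℕ) {c d : C σ} (h : stps δ k c = some d) : Reach δ c d := ⟨k, h⟩

theorem reach1_of_stps (k : ℕ) {c d : C σ} (h : stps δ (k + 1) c = some d) : Reach1 δ c d := ⟨k, h⟩

/-- A step to the right. -/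
theorem Reach1.right {q q' : σ} {b w : Bool} {L R : Str} (h : δ q b = some (w, true, q')) :
    Reach1 δ ⟨q, L, cons b R⟩ ⟨q', cons w L, R⟩ := reach1_of_stp (by simp [stp, h])

/-- A step to the left. -/
theorem Reach1.left {q q' : σ} {a b w : Bool} {L R : Str} (h : δ q b = some (w, false, q')) :
    Reach1 δ ⟨q, cons a L, cons b R⟩ ⟨q', L, cons a (cons w R)⟩ := reach1_of_stp (by simp [stp, h])

theorem stops_of_none {c : C σ} (h : δ c.q (hd c.R) = none) : Stops δ c :=
  ⟨0, c, rfl, by simp [stp, h]⟩

theorem Reach.stops {c d : C σ} (h : Reach δ c d) (h' : Stops δ d) : Stops δ c := by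
  obtain ⟨k, hk⟩ := h
  obtain ⟨m, e, hm, he⟩ := h'
  exact ⟨k + m, e, by rw [stps_add, hk]; exact hm, he⟩

theorem stps_none_of_le {k m : ℕ} {c d : C σ} (h : stps δ k c = some d) (h' : stp δ d = none) (hkm : k < m) : stps δ m c = none := by
  obtain ⟨j, rfl⟩ := Nat.exists_eq_add_of_lt hkm
  rw [Nat.add_assoc, stps_add, h]
  simp [stps, h']

theorem Reach.stops_iff {c d : C σ} (h : Reach δ c d) : Stops δ c ↔ Stops δ d := by
  refine ⟨?_, h.stops⟩
  rintro ⟨m, e, hm, he⟩
  obtain ⟨k, hk⟩ := h
  rcases Nat.lt_or_ge m k with hlt | hge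
  · rw [stps_none_of_le hm he hlt] at hk
    cases hk
  · obtain ⟨j, rfl⟩ := Nat.exists_eq_add_of_le hge
    rw [stps_add, hk] at hm
    exact ⟨j, e, hm, he⟩

/-- A machine that simulates an abstract partial function `F` stops iff the iteration of `F` does. -/
theorem stops_iff {α : Type} (F : α → Option α) (cfg : α → C σ) (Inv : α → Prop)
    (hsome : ∀ a b, Inv a → F a = some b → Inv b ∧ Reach1 δ (cfg a) (cfg b))
    (hnone : ∀ a, Inv a → F a = none → Stops δ (cfg a)) (a : α) (ha : Inv a) :
    Stops δ (cfg a) ↔ ∃ k, (fun x : Option α => x.bind F)^[k] (some a) = none := by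
  constructor
  · rintro ⟨k, d, hk, hd⟩
    by_contra hcon
    push Not at hcon
    have key : ∀ m, ∃ b j, (fun x : Option α => x.bind F)^[m] (some a) = some b ∧ Inv b ∧ m ≤ j ∧ stps δ j (cfg a) = some (cfg b) := by
      intro m
      induction m with
      | zero => exact ⟨a, 0, rfl, ha, le_rfl, rfl⟩
      | succ m ih =>
        obtain ⟨b, j, h1, h2, h3, h4⟩ := ih
        have h5 := hcon (m + 1)
        rw [Function.iterate_succ_apply', h1] at h5
        simp only [Option.bind_some] at h5
        obtain ⟨b', hb'⟩ := Option.ne_none_iff_exists'.1 h5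
        obtain ⟨i1, i, hi⟩ := hsome b b' h2 hb'
        refine ⟨b', j + (i + 1), ?_, i1, by omega, ?_⟩
        · rw [Function.iterate_succ_apply', h1]
          simpa using hb'
        · rw [stps_add, h4]
          exact hi
    obtain ⟨b, j, _, _, hj, h4⟩ := key (k + 1)
    rw [stps_none_of_le hk hd (by omega)] at h4
    cases h4
  · rintro ⟨k, hk⟩
    induction k generalizing a with
    | zero => cases hk
    | succ k ih =>
      rw [Function.iterate_succ_apply] at hk
      simp only [Option.bind_some] at hk
      cases h : F a with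
      | none => exact hnone a ha h
      | some b =>
        rw [h] at hk
        obtain ⟨h1, h2⟩ := hsome a b ha h
        exact h2.reach.stops (ih b h1 hk)

/-! ## the two kinds of configurations -/

/-- The two-sided configuration `c` looks like `d`. -/
structure Like {n : ℕ} (c : Cfg n) (d : C (Fin n)) : Prop where
  q : c.q = d.q
  R : ∀ i : ℕ, c.tape (c.pos + i) = d.R i
  L : ∀ i : ℕ, c.tape (c.pos - 1 - i) = d.L i

theorem like_init {n : ℕ} (M : TM n) : Like ⟨M.start, 0, fun _ => false⟩ ⟨M.start, blank, blank⟩ :=
  ⟨rfl, fun _ => rfl, fun _ => rfl⟩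

theorem Like.head {n : ℕ} {c : Cfg n} {d : C (Fin n)} (h : Like c d) : c.tape c.pos = hd d.R := by
  have := h.R 0
  simpa [hd] using this

theorem Like.step_none {n : ℕ} {M : TM n} {c : Cfg n} {d : C (Fin n)} (h : Like c d) : M.step c = none ↔ stp M.tr d = none := by
  unfold TM.step stp
  rw [h.head, h.q]
  rcases M.tr d.q (hd d.R) with _ | ⟨w, _ | _, q'⟩ <;> simp

theorem Like.step {n : ℕ} {M : TM n} {c : Cfg n} {d : C (Fin n)} (h : Like c d) :
    (M.step c = none ∧ stp M.tr d = none) ∨ ∃ c' d', M.step c = some c' ∧ stp M.tr d = some d' ∧ Like c' d' := by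
  unfold TM.step stp
  rw [h.head, h.q]
  rcases M.tr d.q (hd d.R) with _ | ⟨w, _ | _, q'⟩
  · exact Or.inl ⟨rfl, rfl⟩
  · right
    refine ⟨_, _, rfl, rfl, ⟨rfl, ?_, ?_⟩⟩
    · intro i
      rcases i with _ | _ | i
      · have := h.L 0
        simp only [Nat.cast_zero, sub_zero] at this
        simp only [Bool.false_eq_true, if_false, Nat.cast_zero, add_zero]
        rw [Function.update_of_ne (by omega), this]
        rfl
      · simp only [Bool.false_eq_true, if_false]
        rw [show c.pos - 1 + ((0 + 1 : ℕ) : ℤ) = c.pos by push_cast; ring, Function.update_self]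
        rfl
      · simp only [Bool.false_eq_true, if_false]
        rw [show c.pos - 1 + ((i + 1 + 1 : ℕ) : ℤ) = c.pos + ((i + 1 : ℕ) : ℤ) by push_cast; ring,
          Function.update_of_ne (by push_cast; omega), h.R (i + 1)]
        rfl
    · intro i
      simp only [Bool.false_eq_true, if_false]
      rw [Function.update_of_ne (by omega), show c.pos - 1 - 1 - (i : ℤ) = c.pos - 1 - ((i + 1 : ℕ) : ℤ) by push_cast; ring, h.L (i + 1)]
      rfl
  · right
    refine ⟨_, _, rfl, rfl, ⟨rfl, ?_, ?_⟩⟩
    · intro i
      simp only [if_true]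
      rw [Function.update_of_ne (by omega), show c.pos + 1 + (i : ℤ) = c.pos + ((i + 1 : ℕ) : ℤ) by push_cast; ring, h.R (i + 1)]
      rfl
    · intro i
      rcases i with _ | i
      · simp only [if_true, Nat.cast_zero, sub_zero]
        rw [show c.pos + 1 - 1 = c.pos by ring, Function.update_self]
        rfl
      · simp only [if_true]
        rw [show c.pos + 1 - 1 - ((i + 1 : ℕ) : ℤ) = c.pos - 1 - (i : ℤ) by push_cast; ring, Function.update_of_ne (by omega), h.L i]
        rfl

theorem Like.run {n : ℕ} {M : TM n} (k : ℕ) {c : Cfg n} {d : C (Fin n)} (h : Like c d) :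
    (M.run k c = none ∧ stps M.tr k d = none) ∨ ∃ c' d', M.run k c = some c' ∧ stps M.tr k d = some d' ∧ Like c' d' := by
  induction k generalizing c d with
  | zero => exact Or.inr ⟨c, d, rfl, rfl, h⟩
  | succ k ih =>
    rcases h.step (M := M) with ⟨h1, h2⟩ | ⟨c', d', h1, h2, h3⟩
    · left
      simp [TM.run, stps, h1, h2]
    · simp only [TM.run, stps, h1, h2, Option.bind_some]
      exact ih h3

theorem TM.halts_iff {n : ℕ} (M : TM n) : M.Halts ↔ Stops M.tr ⟨M.start, blank, blank⟩ := by
  rw [M.halts_iff_run]
  constructor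
  · rintro ⟨k, c, hk, hc⟩
    rcases (like_init M).run (M := M) k with ⟨h1, _⟩ | ⟨c', d', h1, h2, h3⟩
    · rw [h1] at hk
      cases hk
    · rw [h1] at hk
      cases hk
      exact ⟨k, d', h2, h3.step_none.1 hc⟩
  · rintro ⟨k, d, hk, hd⟩
    rcases (like_init M).run (M := M) k with ⟨_, h1⟩ | ⟨c', d', h1, h2, h3⟩
    · rw [h1] at hk
      cases hk
    · rw [h2] at hk
      cases hk
      exact ⟨k, c', h1, h3.step_none.2 hd⟩

/-! ## change of the state type -/

/-- Stopping does not depend on the names of the states. -/
theorem stops_map {τ : Type} {δ' : τ → Bool → Option (Bool × Bool × τ)} (f : σ → τ)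
    (hf : ∀ q b, δ' (f q) b = (δ q b).map (fun r => (r.1, r.2.1, f r.2.2))) (c : C σ) :
    Stops δ' ⟨f c.q, c.L, c.R⟩ ↔ Stops δ c := by
  have h1 : ∀ c : C σ, stp δ' ⟨f c.q, c.L, c.R⟩ = (stp δ c).map (fun d => ⟨f d.q, d.L, d.R⟩) := by
    intro c
    unfold stp
    simp only [hf]
    rcases δ c.q (hd c.R) with _ | ⟨w, _ | _, q'⟩ <;> rfl
  have h2 : ∀ k (c : C σ), stps δ' k ⟨f c.q, c.L, c.R⟩ = (stps δ k c).map (fun d => ⟨f d.q, d.L, d.R⟩) := by
    intro k
    induction k with
    | zero => intro c; rfl
    | succ k ih =>
      intro c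
      simp only [stps, h1]
      cases h : stp δ c with
      | none => rfl
      | some d => simpa using ih d
  constructor
  · rintro ⟨k, d, hk, hd⟩
    rw [h2] at hk
    cases h : stps δ k c with
    | none => rw [h] at hk; cases hk
    | some e =>
      rw [h] at hk
      simp only [Option.map_some, Option.some.injEq] at hk
      subst hk
      rw [h1] at hd
      exact ⟨k, e, h, by simpa using hd⟩
  · rintro ⟨k, d, hk, hd⟩
    exact ⟨k, ⟨f d.q, d.L, d.R⟩, by rw [h2, hk]; rfl, by rw [h1, hd]; rfl⟩

end Pool.Agent.Helper19.ZH
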