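import Pool.Agent.Helper19.ZH.Loop
import Pool.Agent.Helper62.ZH.TextSearch

/-!
# Project ZH (MP_f907b0): the machine with 144 states

`tab`: its table (row number `q`: the transitions of the state `q` on `0` and on `1`).
`nm`: the state of the machine for each state of `del text` (several states are identified).
-/

set_option autoImplicit false

namespace Pool.Agent.Helper19.ZH

/-- The transitions: `r0 q`: write `0`, move right, enter the state `q`; `l1 q`: write `1`, move left, enter the state `q`; `none`: halt. -/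
abbrev Tr := Option (Bool × Bool × ℕ)

def r0 (q : ℕ) : Tr := some (false, true, q)
def r1 (q : ℕ) : Tr := some (true, true, q)
def l0 (q : ℕ) : Tr := some (false, false, q)
def l1 (q : ℕ) : Tr := some (true, false, q)

/-- The rows number 0, ..., 23. -/
def tab1 : List (Tr × Tr) := [
  (r0 1, r1 1),
  (r1 2, r1 2),
  (r1 3, r1 4),
  (l0 5, r1 0),
  (l0 6, r1 0),
  (l0 7, l1 7),
  (r0 8, l1 9),
  (l0 10, l1 10),
  (l0 11, r0 8),
  (r0 12, l1 13),
  (l0 14, l1 14),
  (r1 15, l1 16),
  (r0 17, r1 12),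
  (l1 18, l0 19),
  (l0 11, l1 5),
  (r0 20, r0 15),
  (l0 21, l1 22),
  (r0 23, r1 23),
  (r0 24, l1 25),
  (none, l1 6),
  (r0 26, r1 1),
  (r1 27, r1 27),
  (l0 28, l1 29),
  (r1 30, l1 31)]

/-- The rows number 24, ..., 47. -/
def tab2 : List (Tr × Tr) := [
  (l0 14, l0 14),
  (l0 32, l1 32),
  (r0 33, r1 33),
  (r0 34, r1 27),
  (l0 35, l1 36),
  (l0 37, l1 38),
  (r1 39, r1 39),
  (r0 1, l1 32),
  (r0 40, l1 41),
  (r1 42, r1 43),
  (r0 44, r1 34),
  (r1 45, r1 27),
  (r1 46, l1 47),
  (l1 48, r1 27),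
  (r1 49, l1 50),
  (l0 25, r1 17),
  (r1 1, r0 1),
  (l0 18, l1 18),
  (l0 5, r1 51),
  (r1 0, r1 51),
  (r0 52, r1 52),
  (r0 53, r1 45),
  (r0 54, r1 46),
  (l0 35, l1 55)]

/-- The rows number 48, ..., 71. -/
def tab3 : List (Tr × Tr) := [
  (l1 35, r1 27),
  (r0 56, r1 49),
  (l0 21, l1 57),
  (r0 26, r1 26),
  (r0 58, r1 58),
  (r0 34, r1 46),
  (r0 59, r1 59),
  (l0 60, l1 61),
  (r0 62, l1 63),
  (l0 35, l1 64),
  (r0 65, r1 65),
  (r0 66, r0 67),
  (r1 9, r1 27),
  (r1 49, l1 68),
  (r1 30, l1 40),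
  (l0 69, r0 70),
  (l0 48, l1 71),
  (l0 72, r1 44),
  (r0 73, r1 73),
  (r0 74, r1 74),
  (r1 46, l1 75),
  (r0 15, l1 69),
  (r0 76, r1 77),
  (l0 35, l1 78)]

/-- The rows number 72, ..., 95. -/
def tab4 : List (Tr × Tr) := [
  (l0 79, l0 80),
  (l0 5, r1 54),
  (l0 5, r1 81),
  (r1 46, l1 82),
  (r1 83, l1 84),
  (r0 85, r1 77),
  (r1 46, l1 86),
  (l0 87, l1 87),
  (l0 88, l1 88),
  (r0 89, r1 89),
  (l0 37, l1 90),
  (l0 11, r1 83),
  (r1 91, l1 92),
  (r0 34, r1 91),
  (l0 60, l1 93),
  (l0 94, l1 94),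
  (l0 95, l1 95),
  (r0 67, r1 66),
  (l0 96, l1 97),
  (r0 81, r1 91),
  (l0 21, l1 98),
  (l0 35, l1 99),
  (l0 100, l1 72),
  (l0 101, l1 102)]

/-- The rows number 96, ..., 119. -/
def tab5 : List (Tr × Tr) := [
  (l1 103, r1 27),
  (r1 49, l1 104),
  (l0 96, l1 105),
  (r1 49, l1 106),
  (l0 107, l1 100),
  (l0 108, l1 101),
  (l0 80, l1 79),
  (r1 109, r1 27),
  (l0 110, l1 111),
  (l0 35, l1 112),
  (l0 21, l1 113),
  (l0 114, l1 114),
  (l0 115, l1 115),
  (r0 116, r1 109),
  (l1 117, r1 27),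
  (l0 103, l1 118),
  (r1 49, l1 119),
  (l0 48, l1 120),
  (r0 63, l1 114),
  (r1 45, l1 115),
  (r0 121, r1 116),
  (l1 21, r1 27),
  (r1 46, l1 122),
  (l0 35, l1 123)]

/-- The rows number 120, ..., 143. -/
def tab6 : List (Tr × Tr) := [
  (l0 60, l1 124),
  (r0 1, r1 23),
  (r1 46, l1 125),
  (l0 48, l1 126),
  (l0 37, l1 127),
  (l0 48, l1 128),
  (r1 129, l1 130),
  (r1 49, l1 131),
  (l0 60, l1 132),
  (r0 51, r1 129),
  (l0 37, l1 133),
  (l0 28, l1 134),
  (r1 49, l1 135),
  (r1 116, l1 6),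
  (l0 117, l1 136),
  (l0 35, l1 137),
  (l0 35, l1 138),
  (r1 46, l1 84),
  (l0 96, l1 139),
  (l0 28, l1 140),
  (l0 21, l1 141),
  (r1 49, l1 142),
  (l0 110, l1 143),
  (l0 96, l1 28)]

/-- The table: for each state the transitions on `0` and on `1`. -/
def tab : List (Tr × Tr) := tab1 ++ tab2 ++ tab3 ++ tab4 ++ tab5 ++ tab6

/-- The machine: the state `0` is the initial state; in the state `q` it performs the first entry of row `q` on the symbol `0` and the second entry on `1`. -/
def machine : TM 144 where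
  start := Fin.ofNat 144 0
  tr := fun q b => (if b = true then (tab.getD q.1 (none, none)).2 else (tab.getD q.1 (none, none)).1).map fun t => (t.1, t.2.1, Fin.ofNat 144 t.2.2)

/-- The chain states. -/
def nmC : List (Fin 144) := [11, 16, 22, 29, 38, 50, 57, 64, 71, 78, 86, 93, 99, 106, 113, 120, 124, 127, 131, 134, 136, 138, 139, 140, 141, 142, 143, 28, 36, 47, 55, 61, 68, 75, 82, 90, 97, 104, 111, 118, 122, 125, 128, 132, 135, 137, 84, 92, 98, 105, 112, 119, 123, 126, 130, 133, 6]

/-- The names of the states. -/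
def nm : St → Fin 144
  | .C i => nmC.getD i 0
  | .K k => [0, 21, 117, 110].getD k 0
  | .O k => [0, 35, 48, 37].getD k 0
  | .KJ k => [0, 103, 96].getD k 0
  | .R false => 91
  | .R true => 46
  | .RR false => 77
  | .RR true => 45
  | .S false => 85
  | .S true => 53
  | .P false => 100
  | .P true => 101
  | .Q false => 107
  | .Q true => 108
  | .q false => 114
  | .q true => 115
  | .AV false => 81
  | .AV true => 54
  | .AA false => 89
  | .AA true => 59
  | .AD false => 67
  | .AD true => 66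
  | .AE false => 74
  | .AE true => 73
  | .DD false => 102
  | .DD true => 72
  | .DA false => 80
  | .DA true => 79
  | .DV false => 88
  | .DV true => 87
  | .DE false => 95
  | .DE true => 94
  | .RE false => 3
  | .RE true => 4
  | .rE false => 42
  | .rE true => 43
  | .Ks => 28
  | .KX => 60
  | .VX => 9
  | .VJ => 109
  | .G => 27
  | .Gp => 34
  | .X => 63
  | .Y => 70
  | .Yp => 76
  | .Ypp => 84
  | .H => 83
  | .WL => 49
  | .WJ => 116
  | .WX => 12
  | .Wr => 129
  | .Lv => 56
  | .Ka => 62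
  | .Jv => 121
  | .NV => 44
  | .NA => 52
  | .ND => 58
  | .NE => 65
  | .NLd => 5
  | .NLa => 7
  | .NLv => 10
  | .NLe => 14
  | .FV => 17
  | .FA => 23
  | .FD => 30
  | .FE => 39
  | .GV => 31
  | .ALe => 32
  | .ALd => 41
  | .ALa => 18
  | .ALv => 25
  | .RVf => 40
  | .RV => 0
  | .RA => 1
  | .RD => 2
  | .CLd => 25
  | .CLa => 32
  | .CLv => 41
  | .CLe => 18
  | .CV => 24
  | .rV => 51
  | .rA => 26
  | .rD => 33
  | .U1 => 63
  | .U2 => 69
  | .Er => 15
  | .Es => 8
  | .Tv => 20
  | .Id => 6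
  | .Ia => 9
  | .Iv => 13
  | .Ie => 19

/-- The states that occur. -/
def okS : St → Bool
  | .C i => decide (i ≤ 56)
  | .K k => decide (1 ≤ k ∧ k ≤ 3)
  | .O k => decide (1 ≤ k ∧ k ≤ 3)
  | .KJ k => decide (1 ≤ k ∧ k ≤ 2)
  | _ => true

/-- The check for one state and one symbol. -/
def good (q : St) (b : Bool) : Bool :=
  match del Pool.Agent.Helper62.ZH.text q b with
  | none => true
  | some (w, d, r) => okS r && decide (machine.tr (nm q) b = some (w, d, nm r))

theorem good_C : ∀ i : ℕ, i < 57 → ∀ b : Bool, good (.C i) b = true := by decide +kernel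

theorem good_K : ∀ i : ℕ, i < 4 → 1 ≤ i → ∀ b : Bool, good (.K i) b = true := by decide +kernel

theorem good_O : ∀ i : ℕ, i < 4 → 1 ≤ i → ∀ b : Bool, good (.O i) b = true := by decide +kernel

theorem good_KJ : ∀ i : ℕ, i < 3 → 1 ≤ i → ∀ b : Bool, good (.KJ i) b = true := by decide +kernel

theorem good_all (q : St) (h : okS q = true) (b : Bool) : good q b = true := by
  cases q with
  | C i => exact good_C i (by have := of_decide_eq_true h; omega) b
  | K i => exact good_K i (by have := of_decide_eq_true h; omega) (of_decide_eq_true h).1 b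
  | O i => exact good_O i (by have := of_decide_eq_true h; omega) (of_decide_eq_true h).1 b
  | KJ i => exact good_KJ i (by have := of_decide_eq_true h; omega) (of_decide_eq_true h).1 b
  | R s => revert s b; decide +kernel
  | RR s => revert s b; decide +kernel
  | S s => revert s b; decide +kernel
  | P s => revert s b; decide +kernel
  | Q s => revert s b; decide +kernel
  | q s => revert s b; decide +kernel
  | AV s => revert s b; decide +kernel
  | AA s => revert s b; decide +kernel
  | AD s => revert s b; decide +kernel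
  | AE s => revert s b; decide +kernel
  | DD s => revert s b; decide +kernel
  | DA s => revert s b; decide +kernel
  | DV s => revert s b; decide +kernel
  | DE s => revert s b; decide +kernel
  | RE s => revert s b; decide +kernel
  | rE s => revert s b; decide +kernel
  | _ => revert b; decide +kernel

/-- The machine extends the partial machine. -/
theorem ext (q : St) (h : okS q = true) (b w d : Bool) (r : St) (hd : del Pool.Agent.Helper62.ZH.text q b = some (w, d, r)) :
    okS r = true ∧ machine.tr (nm q) b = some (w, d, nm r) := by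
  have h1 := good_all q h b
  unfold good at h1
  rw [hd] at h1
  simp only [Bool.and_eq_true, decide_eq_true_eq] at h1
  exact h1

end Pool.Agent.Helper19.ZH
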