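import Pool.Agent.Helper19.ZH.Passes

/-!
# Project ZH (MP_f907b0): the tokens that do not end an atom

The tape to the left of position `-1`: `Z0 p = 1 ^ p 0 0 ...`; `Zc p k = 1 ^ p 0 1 ^ k 0 ...` (copy mode, need `k`); `Zs p k = 1 ^ p 0 0 1 ^ k 0 ...` (skip mode).
-/

set_option autoImplicit false

namespace Pool.Agent.Helper19.ZH

def Z0 (p : ℕ) : Str := rep p true blank
def Zc (p k : ℕ) : Str := rep p true (cons false (rep k true blank))
def Zs (p k : ℕ) : Str := rep p true (cons false (cons false (rep k true blank)))

/-- The tape from position `-1` to the right. -/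
def HR : List Cell → Str
  | [] => blank
  | c :: cs => cons false (cons c.v (cons c.a (cons c.d (rt cs))))

theorem home_eq (q : St) (L : Str) (cs : List Cell) : Home q L cs = CL q L (HR cs) := by cases cs <;> rfl

theorem Z0_eq (p : ℕ) : Z0 p = rep p true (cons false (cons false blank)) := by simp [Z0]

variable (prog : List Tok)

/-- Walk to the right, to the bit `v` of cell 0. -/
theorem walk_arr {w q : St} (h1 : del prog w true = some (true, true, w)) (h2 : del prog w false = some (false, true, q)) (p : ℕ) (L : Str) (cs : List Cell) (hne : cs ≠ []) :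
    Reach (del prog) ⟨w, L, rep p true (HR cs)⟩ (Vc q (rep p true L) [] cs) := by
  obtain ⟨c, cs, rfl⟩ := List.exists_cons_of_ne_nil hne
  exact (walk_right h1 p L _).trans (Reach1.right h2).reach

/-- The chain. -/
theorem chain (i p : ℕ) (h : i + p ≤ prog.length) (L R : Str) : Reach (del prog) (CL (.C i) (rep p true L) R) (CL (.C (i + p)) L (rep p true R)) := by
  induction p generalizing i R with
  | zero => exact Reach.refl _
  | succ p ih =>
    rw [rep_succ, rep_succ' p true R, show i + (p + 1) = (i + 1) + p by omega]
    have hs : del prog (.C i) true = some (true, false, .C (i + 1)) := by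
      cases i with
      | zero => rfl
      | succ i =>
        change (if i + 1 < prog.length then _ else _) = _
        rw [if_pos (by omega)]
    exact (Reach1.CL_left hs).reach.trans (ih (i + 1) (by omega) _)

variable {prog}

/-- From position `-2` to the handler of the token number `p` (the token `prog[p]` is executed with the program counter `p + 1`). -/
theorem fetch {p : ℕ} {t : Tok} (ht : prog[p]? = some t) (L : Str) (cs : List Cell) :
    Reach (del prog) (Home (.C 0) (rep (p + 1) true (cons false L)) cs) (CL (.C (p + 1)) (cons false L) (rep (p + 1) true (HR cs))) := by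
  rw [home_eq]
  have hp : p < prog.length := (List.getElem?_eq_some_iff.1 ht).1
  have := chain prog 0 (p + 1) (by omega) (cons false L) (HR cs)
  rwa [Nat.zero_add] at this

theorem del_C {p : ℕ} {t : Tok} (ht : prog[p]? = some t) : del prog (.C (p + 1)) false = some t.act := by
  change (prog[p]?).map Tok.act = _
  rw [ht]
  rfl

/-- Literal. -/
theorem tok_lit {p : ℕ} {s : Bool} (ht : prog[p]? = some (.lit s)) {vs as ds : List Bool} (h1 : as.length = vs.length) (h2 : ds.length = vs.length) (h : vs ≠ []) :
    Reach (del prog) (Home (.C 0) (Z0 (p + 1)) (mk vs as ds)) (Home (.C 0) (Z0 (p + 2)) (mk vs (sv s as) ds)) := by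
  have e : Z0 (p + 1) = rep (p + 1) true (cons false blank) := by simp [Z0]
  rw [e]
  refine (fetch ht _ _).trans ?_
  refine (Reach1.CL_right (del_C ht)).reach.trans ?_
  refine (walk_arr prog (w := St.R s) (q := St.AV s) (by rfl) (by rfl) (p + 1) _ _ (mk_ne_nil h1 h2 h)).trans ?_
  have e2 : rep (p + 1) true (cons true blank) = Z0 (p + 2) := by rw [← rep_succ']; rfl
  rw [e2]
  exact emit prog s _ h1 h2 h

/-! ## copying -/

/-- In copy mode, from the separator to the bit `v` of cell 0. -/
theorem toN (p k : ℕ) (cs : List Cell) (hne : cs ≠ []) : Reach (del prog) ⟨.G, rep k true blank, cons false (rep (p + 1) true (HR cs))⟩ (Vc .NV (Zc (p + 1) k) [] cs) := by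
  refine (Reach1.right (q' := St.Gp) (w := false) (by rfl)).reach.trans ?_
  exact walk_arr prog (w := St.Gp) (q := St.NV) (by rfl) (by rfl) (p + 1) _ _ hne

/-- First visit of a copy token: the need is written. -/
theorem writeK (k : ℕ) (R : Str) : Reach (del prog) (CL (.K (k + 1)) blank (cons false R)) ⟨.G, rep (k + 1) true blank, cons false R⟩ := by
  have key : ∀ k m : ℕ, Reach (del prog) (CL (.K (k + 1)) blank (rep m true (cons false R))) ⟨.G, rep (k + m + 1) true blank, cons false R⟩ := by
    intro k
    induction k with
    | zero =>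
      intro m
      rw [show (blank : Str) = cons false blank from cons_blank.symm]
      refine (Reach1.CL_right (w := true) (q' := St.G) (by rfl)).reach.trans ?_
      refine (walk_right (by rfl) m _ _).trans ?_
      rw [cons_blank, Nat.zero_add, rep_succ']
      exact Reach.refl _
    | succ k ih =>
      intro m
      rw [show (blank : Str) = cons false blank from cons_blank.symm]
      refine (Reach1.CL_left (w := true) (q' := St.K (k + 1)) (by rfl)).reach.trans ?_
      rw [cons_blank, ← rep_succ, show k + 1 + m + 1 = k + (m + 1) + 1 by omega]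
      exact ih (m + 1)
  exact key k 0

/-- First visit of a copy token with a literal. -/
theorem writeO (k : ℕ) (R : Str) : Reach (del prog) (CL (.O (k + 1)) blank (cons false R)) ⟨.RR true, rep (k + 1) true blank, cons false R⟩ := by
  have key : ∀ k m : ℕ, Reach (del prog) (CL (.O (k + 1)) blank (rep m true (cons false R))) ⟨.RR true, rep (k + m + 1) true blank, cons false R⟩ := by
    intro k
    induction k with
    | zero =>
      intro m
      rw [show (blank : Str) = cons false blank from cons_blank.symm]
      refine (Reach1.CL_right (w := true) (q' := St.RR true) (by rfl)).reach.trans ?_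
      refine (walk_right (by rfl) m _ _).trans ?_
      rw [cons_blank, Nat.zero_add, rep_succ']
      exact Reach.refl _
    | succ k ih =>
      intro m
      rw [show (blank : Str) = cons false blank from cons_blank.symm]
      refine (Reach1.CL_left (w := true) (q' := St.O (k + 1)) (by rfl)).reach.trans ?_
      rw [cons_blank, ← rep_succ, show k + 1 + m + 1 = k + (m + 1) + 1 by omega]
      exact ih (m + 1)
  exact key k 0

/-- From the separator, in copy mode, to the emission of `s`. -/
theorem toA (s : Bool) (p k : ℕ) (cs : List Cell) (hne : cs ≠ []) : Reach (del prog) ⟨.RR s, rep k true blank, cons false (rep (p + 1) true (HR cs))⟩ (Vc (.AV s) (Zc (p + 1) k) [] cs) := by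
  refine (Reach1.right (q' := St.S s) (w := false) (by cases s <;> rfl)).reach.trans ?_
  rw [rep_succ]
  refine (Reach1.right (q' := St.R s) (w := true) (by cases s <;> rfl)).reach.trans ?_
  refine (walk_arr prog (w := St.R s) (q := St.AV s) (by cases s <;> rfl) (by cases s <;> rfl) p _ _ hne).trans ?_
  rw [← rep_succ']
  exact Reach.refl _

/-- Tokens that can come back in copy mode. -/
def Tok.cpy : Tok → Prop
  | .cp _ => True
  | .oc _ => True
  | .xc => True
  | .jc _ => True
  | _ => False

theorem Tok.cpy_act {t : Tok} (h : t.cpy) : ∃ q, t.act = (false, false, q) ∧ del prog q true = some (true, true, .G) := by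
  cases t with
  | cp j =>
    refine ⟨_, rfl, ?_⟩
    rcases j with _ | _ | j <;> rfl
  | oc j =>
    refine ⟨_, rfl, ?_⟩
    rcases j with _ | _ | j <;> rfl
  | jc j =>
    refine ⟨_, rfl, ?_⟩
    rcases j with _ | _ | j <;> rfl
  | xc => exact ⟨_, rfl, rfl⟩
  | _ => exact absurd h (by simp [Tok.cpy])

/-- The token comes back in copy mode. -/
theorem again {p k : ℕ} {t : Tok} (ht : prog[p]? = some t) (hk : t.cpy) (cs : List Cell) (hne : cs ≠ []) :
    Reach (del prog) (Home (.C 0) (Zc (p + 1) (k + 1)) cs) (Vc .NV (Zc (p + 1) (k + 1)) [] cs) := by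
  refine (fetch ht _ _).trans ?_
  rw [rep_succ k true blank]
  obtain ⟨q, hq1, hq2⟩ := t.cpy_act (prog := prog) hk
  have h0 := del_C ht
  rw [hq1] at h0
  refine (Reach1.CL_left h0).reach.trans ?_
  refine (Reach1.CL_right hq2).reach.trans ?_
  exact toN p (k + 1) cs hne

/-- First visit of `cp`. -/
theorem first_cp {p k : ℕ} (ht : prog[p]? = some (.cp (k + 1))) (cs : List Cell) (hne : cs ≠ []) :
    Reach (del prog) (Home (.C 0) (Z0 (p + 1)) cs) (Vc .NV (Zc (p + 1) (k + 1)) [] cs) := by
  have e : Z0 (p + 1) = rep (p + 1) true (cons false blank) := by simp [Z0]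
  rw [e]
  refine (fetch ht _ _).trans ?_
  refine (Reach1.CL_left (del_C ht)).reach.trans ?_
  exact (writeK k _).trans (toN p (k + 1) cs hne)

/-- First visit of `oc`. -/
theorem first_oc {p k : ℕ} (ht : prog[p]? = some (.oc (k + 1))) {vs as ds : List Bool} (h1 : as.length = vs.length) (h2 : ds.length = vs.length) (h : vs ≠ []) :
    Reach (del prog) (Home (.C 0) (Z0 (p + 1)) (mk vs as ds)) (Vc .NV (Zc (p + 1) (k + 1)) [] (mk vs (sv true as) ds)) := by
  have e : Z0 (p + 1) = rep (p + 1) true (cons false blank) := by simp [Z0]
  rw [e]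
  refine (fetch ht _ _).trans ?_
  refine (Reach1.CL_left (del_C ht)).reach.trans ?_
  refine (writeO k _).trans ?_
  refine (toA true p (k + 1) _ (mk_ne_nil h1 h2 h)).trans ?_
  refine (emit prog true _ h1 h2 h).trans ?_
  exact again ht trivial _ (mk_ne_nil (by simpa using h1) h2 h)

/-- Arrival of the digit 1 in copy mode. -/
theorem arr_one (p k : ℕ) (cs : List Cell) (hne : cs ≠ []) :
    Reach (del prog) (Home (.P true) (Zc (p + 1) (k + 1)) cs) (Vc (.AV true) (Zc (p + 1) (k + 2)) [] cs) := by
  rw [home_eq, Zc]
  refine (walk_left (q := St.P true) (by rfl) (p + 1) _ _).trans ?_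
  refine (Reach1.CL_left (w := false) (q' := St.Q true) (by rfl)).reach.trans ?_
  rw [rep_succ k true blank]
  refine (Reach1.CL_left (w := true) (q' := St.q true) (by rfl)).reach.trans ?_
  refine (walk_left (q := St.q true) (by rfl) k _ _).trans ?_
  rw [← rep_succ', show (blank : Str) = cons false blank from cons_blank.symm]
  refine (Reach1.CL_right (w := true) (q' := St.RR true) (by rfl)).reach.trans ?_
  refine (walk_right (q := St.RR true) (by rfl) (k + 1) _ _).trans ?_
  rw [← rep_succ']
  exact toA true p (k + 2) cs hne

/-- Arrival of the digit 0 in copy mode. -/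
theorem arr_zero (p k : ℕ) (cs : List Cell) (hne : cs ≠ []) :
    Reach (del prog) (Home (.P false) (Zc (p + 1) (k + 2)) cs) (Vc (.AV false) (Zc (p + 1) (k + 1)) [] cs) := by
  rw [home_eq, Zc]
  refine (walk_left (q := St.P false) (by rfl) (p + 1) _ _).trans ?_
  refine (Reach1.CL_left (w := false) (q' := St.Q false) (by rfl)).reach.trans ?_
  rw [rep_succ (k + 1) true blank]
  refine (Reach1.CL_left (w := true) (q' := St.q false) (by rfl)).reach.trans ?_
  refine (walk_left (q := St.q false) (by rfl) (k + 1) _ _).trans ?_
  rw [← rep_succ', show (blank : Str) = cons false blank from cons_blank.symm]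
  refine (Reach1.CL_right (w := false) (q' := St.X) (by rfl)).reach.trans ?_
  rw [rep_succ, rep_succ, cons_blank]
  refine (Reach1.right (w := false) (q' := St.Y) (by rfl)).reach.trans ?_
  refine (Reach1.right (w := true) (q' := St.RR false) (by rfl)).reach.trans ?_
  refine (walk_right (q := St.RR false) (by rfl) k _ _).trans ?_
  rw [cons_blank, ← rep_succ']
  exact toA false p (k + 1) cs hne

/-- Arrival of the last digit in copy mode. -/
theorem arr_last (p : ℕ) (cs : List Cell) (hne : cs ≠ []) :
    Reach (del prog) (Home (.P false) (Zc (p + 1) 1) cs) (Vc (.AV false) (Z0 (p + 2)) [] cs) := by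
  rw [home_eq, Zc]
  refine (walk_left (q := St.P false) (by rfl) (p + 1) _ _).trans ?_
  refine (Reach1.CL_left (w := false) (q' := St.Q false) (by rfl)).reach.trans ?_
  rw [rep_succ 0 true blank, rep_zero]
  refine (Reach1.CL_left (w := true) (q' := St.q false) (by rfl)).reach.trans ?_
  rw [show (blank : Str) = cons false blank from cons_blank.symm]
  refine (Reach1.CL_right (w := false) (q' := St.X) (by rfl)).reach.trans ?_
  refine (Reach1.right (w := false) (q' := St.Y) (by rfl)).reach.trans ?_
  refine (Reach1.right (w := false) (q' := St.Yp) (by rfl)).reach.trans ?_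
  rw [rep_succ p true]
  refine (Reach1.left (w := true) (q' := St.Ypp) (by rfl)).reach.trans ?_
  refine (Reach1.right (w := true) (q' := St.R false) (by rfl)).reach.trans ?_
  rw [← rep_succ]
  refine (walk_arr prog (w := St.R false) (q := St.AV false) (by rfl) (by rfl) (p + 1) _ _ hne).trans ?_
  simp only [cons_blank]
  rw [← rep_succ']
  exact Reach.refl _

end Pool.Agent.Helper19.ZH
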